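import Pool.Agent.W988.SR.Bad

/-! Pebblings give programs that read only right entries. -/

set_option autoImplicit false

namespace Pool.Agent.W988.SR

open Finset

section up

variable {V : Type} {G : Dag V} {k : ℕ}

/-- the states: a time and values for the pebbled nodes -/
abbrev PQ (k T : ℕ) (C : ℕ → Finset V) : Type := Σ i : Fin (T + 1), ({u // u ∈ C i.val} → Fin k)

open Classical in
/-- the program of a pebbling; `v i` is the node pebbled in step `i` -/
noncomputable def pebProg (T : ℕ) (C : ℕ → Finset V) (v : ℕ → V)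
    (hv : ∀ i < T, G.pred (v i) ⊆ C i) (hC : ∀ i < T, ∀ u ∈ C (i + 1), u = v i ∨ u ∈ C i)
    (h0 : C 0 = ∅) (t : V) (ht : t ∈ C T) : Program (G.Entry k) k (PQ k T C) (Fin k) where
  start := ⟨⟨0, Nat.succ_pos _⟩, fun u => absurd u.2 (fun h => Finset.notMem_empty u.1 (h0 ▸ h))⟩
  act s := if h : s.1.val < T then Sum.inr ⟨v s.1.val, fun w => s.2 ⟨w.1, hv _ h w.2⟩⟩
    else Sum.inl (s.2 ⟨t, by
      have h1 : s.1.val = T := by
        have := s.1.2
        omega
      rw [h1]
      exact ht⟩)
  next s c := if h : s.1.val < T then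
      ⟨⟨s.1.val + 1, by omega⟩, fun u => if hu : u.1 = v s.1.val then c else
        s.2 ⟨u.1, (hC _ h u.1 u.2).resolve_left hu⟩⟩
    else s

/-- the intended states -/
def idState (I : G.Tables k) (T : ℕ) (C : ℕ → Finset V) (i : ℕ) (hi : i ≤ T) : PQ k T C :=
  ⟨⟨i, Nat.lt_succ_of_le hi⟩, fun u => G.val I u.1⟩

lemma pebProg_state (T : ℕ) (C : ℕ → Finset V) (v : ℕ → V)
    (hv : ∀ i < T, G.pred (v i) ⊆ C i) (hC : ∀ i < T, ∀ u ∈ C (i + 1), u = v i ∨ u ∈ C i)
    (h0 : C 0 = ∅) (t : V) (ht : t ∈ C T) (I : G.Tables k) :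
    ∀ i (hi : i ≤ T), (pebProg (k := k) T C v hv hC h0 t ht).state I i = idState I T C i hi := by
  classical
  intro i
  induction i with
  | zero =>
    intro hi
    unfold idState
    show (pebProg (k := k) T C v hv hC h0 t ht).start = _
    unfold pebProg
    simp only
    congr 1
    funext u
    exact absurd u.2 (fun h => Finset.notMem_empty u.1 (h0 ▸ h))
  | succ i ih =>
    intro hi
    rw [Program.state_succ, ih (by omega)]
    have hact : (pebProg (k := k) T C v hv hC h0 t ht).act (idState I T C i (by omega)) =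
        Sum.inr ⟨v i, G.args I (v i)⟩ := by
      unfold pebProg idState
      simp only
      rw [dif_pos (by omega)]
      rfl
    unfold Program.step
    rw [hact]
    simp only
    unfold pebProg idState
    simp only
    rw [dif_pos (by omega)]
    congr 1
    funext u
    split_ifs with hu
    · rw [hu, ← Dag.val_eq I (v i)]
    · rfl

lemma pebProg_act (T : ℕ) (C : ℕ → Finset V) (v : ℕ → V)
    (hv : ∀ i < T, G.pred (v i) ⊆ C i) (hC : ∀ i < T, ∀ u ∈ C (i + 1), u = v i ∨ u ∈ C i)
    (h0 : C 0 = ∅) (t : V) (ht : t ∈ C T) (I : G.Tables k) (i : ℕ) (hi : i < T) :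
    (pebProg (k := k) T C v hv hC h0 t ht).act
      ((pebProg (k := k) T C v hv hC h0 t ht).state I i) = Sum.inr ⟨v i, G.args I (v i)⟩ := by
  classical
  rw [pebProg_state T C v hv hC h0 t ht I i hi.le]
  unfold pebProg idState
  simp only
  rw [dif_pos hi]
  rfl

lemma pebProg_out (T : ℕ) (C : ℕ → Finset V) (v : ℕ → V)
    (hv : ∀ i < T, G.pred (v i) ⊆ C i) (hC : ∀ i < T, ∀ u ∈ C (i + 1), u = v i ∨ u ∈ C i)
    (h0 : C 0 = ∅) (t : V) (ht : t ∈ C T) (I : G.Tables k) :
    (pebProg (k := k) T C v hv hC h0 t ht).act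
      ((pebProg (k := k) T C v hv hC h0 t ht).state I T) = Sum.inl (G.val I t) := by
  classical
  rw [pebProg_state T C v hv hC h0 t ht I T le_rfl]
  unfold pebProg idState
  simp only
  rw [dif_neg (lt_irrefl _)]

/-- **Pebblings give programs.** -/
theorem upper [Fintype V] (t : V) (p T : ℕ) (C : ℕ → Finset V) (h0 : C 0 = ∅)
    (ht : t ∈ C T) (hs : ∀ i < T, ∃ v, G.pred v ⊆ C i ∧ ∀ u ∈ C (i + 1), u = v ∨ u ∈ C i)
    (hp : ∀ i ≤ T, (C i).card ≤ p) (hk : 0 < k) :
    ∃ (Q : Type) (_ : Finite Q) (P : Program (G.Entry k) k Q (Fin k)), Nat.card Q ≤ (T + 1) * k ^ p ∧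
      ∀ I, P.Outputs I (G.val I t) ∧ ReadsSparsely G P k I := by
  classical
  have hs' : ∀ i, ∃ v, i < T → G.pred v ⊆ C i ∧ ∀ u ∈ C (i + 1), u = v ∨ u ∈ C i := by
    intro i
    by_cases h : i < T
    · obtain ⟨v, hv⟩ := hs i h
      exact ⟨v, fun _ => hv⟩
    · exact ⟨t, fun h' => absurd h' h⟩
  choose v hv using hs'
  refine ⟨PQ k T C, inferInstance, pebProg T C v (fun i hi => (hv i hi).1)
    (fun i hi => (hv i hi).2) h0 t ht, ?_, fun I => ⟨⟨T, pebProg_out ..⟩, ?_⟩⟩
  · rw [Nat.card_sigma]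
    calc ∑ i : Fin (T + 1), Nat.card ({u // u ∈ C i.val} → Fin k) ≤
          ∑ _i : Fin (T + 1), k ^ p := by
          refine Finset.sum_le_sum fun i _ => ?_
          rw [Nat.card_eq_fintype_card, Fintype.card_fun, Fintype.card_fin, Fintype.card_coe]
          exact Nat.pow_le_pow_right hk (hp _ (by have := i.2; omega))
      _ = _ := by rw [Finset.sum_const, Finset.card_univ, Fintype.card_fin, smul_eq_mul]
  · intro w U _
    have hone : Nat.card {α : G.Args k w // (pebProg T C v (fun i hi => (hv i hi).1)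
        (fun i hi => (hv i hi).2) h0 t ht).Reads I ⟨w, α⟩ ∧
          ∀ u, u.1 ∉ U → α u = G.args I w u} ≤ 1 := by
      rw [Finite.card_le_one_iff_subsingleton]
      have key : ∀ α : G.Args k w, (pebProg T C v (fun i hi => (hv i hi).1)
          (fun i hi => (hv i hi).2) h0 t ht).Reads I ⟨w, α⟩ → α = G.args I w := by
        rintro α ⟨j, hj⟩
        rcases Nat.lt_or_ge j T with hjT | hjT
        · rw [pebProg_act _ _ _ _ _ _ _ _ _ _ hjT] at hj
          have h1 := Sum.inr.inj hj
          have h2 : v j = w := congrArg Sigma.fst h1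
          subst h2
          exact (eq_of_heq (Sigma.mk.inj h1).2).symm
        · exfalso
          have h1 := Program.outputs_stable (pebProg_out T C v (fun i hi => (hv i hi).1)
            (fun i hi => (hv i hi).2) h0 t ht I) (j - T)
          rw [Nat.add_sub_cancel' hjT] at h1
          rw [h1, pebProg_out] at hj
          exact absurd hj (by simp)
      constructor
      rintro ⟨α, hα, _⟩ ⟨β, hβ, _⟩
      exact Subtype.ext ((key α hα).trans (key β hβ).symm)
    calc _ ≤ 1 * k ^ U.card := Nat.mul_le_mul_right _ hone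
      _ = _ := one_mul _

end up

end Pool.Agent.W988.SR
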