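import Pool.Agent.W988.SR.Basic

/-! Most inputs are such that the right entries are read in the order of a pebbling. -/

set_option autoImplicit false

namespace Pool.Agent.W988.SR

open Finset

section bad

variable {V Q O : Type} {G : Dag V} {k : ℕ} (P : Program (G.Entry k) k Q O) (ρ : ℕ)

/-- the right entry of `v` is read at time `j` -/
def At (I : G.Tables k) (j : ℕ) (v : V) : Prop :=
  P.act (P.state I j) = Sum.inr ⟨v, G.args I v⟩

/-- the right entry of `v` is read before the right entry of its predecessor `u` -/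
def BadE (u v : V) : Set (G.Tables k) :=
  {I | ReadsSparsely G P ρ I ∧ ∃ j, At P I j v ∧ ∀ i < j, ¬ At P I i u}

/-- correct, but the right entry of `t` is not read -/
def NoSink (φ : Fin k → O) (t : V) : Set (G.Tables k) :=
  {I | P.Outputs I (φ (G.val I t)) ∧ ∀ j, ¬ At P I j t}

variable {P ρ}

lemma At.unique {I : G.Tables k} {j : ℕ} {v w : V} (h : At P I j v) (h' : At P I j w) : v = w := by
  unfold At at h h'
  rw [h] at h'
  exact congrArg Sigma.fst (Sum.inr.inj h')

lemma state_upd (J : G.Tables k) (u : V) (c d : Fin k) (j : ℕ)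
    (h : ∀ i < j, ¬ At P (G.upd J u c) i u) :
    P.state (G.upd J u d) j = P.state (G.upd J u c) j := by
  apply Program.state_congr
  intro i hi e he
  by_cases hE : e = ⟨u, G.args J u⟩
  · exfalso
    refine h i hi ?_
    unfold At
    rw [he, hE, Dag.args_upd]
  · rw [Dag.upd_ne _ _ _ hE, Dag.upd_ne _ _ _ hE]

lemma Program.outputs_stable {X : Type} {P : Program X k Q O} {x : X → Fin k} {j : ℕ} {a : O}
    (h : P.act (P.state x j) = Sum.inl a) : ∀ i, P.state x (j + i) = P.state x j := by
  intro i
  induction i with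
  | zero => rfl
  | succ i ih =>
    rw [← add_assoc, Program.state_succ, ih]
    unfold Program.step
    rw [h]

lemma Program.outputs_unique {X : Type} {P : Program X k Q O} {x : X → Fin k} {a b : O}
    (ha : P.Outputs x a) (hb : P.Outputs x b) : a = b := by
  obtain ⟨i, hi⟩ := ha
  obtain ⟨j, hj⟩ := hb
  rcases Nat.le_total i j with h | h
  · have := Program.outputs_stable hi (j - i)
    rw [Nat.add_sub_cancel' h] at this
    rw [this, hi] at hj
    exact Sum.inl.inj hj
  · have := Program.outputs_stable hj (i - j)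
    rw [Nat.add_sub_cancel' h] at this
    rw [this, hj] at hi
    exact (Sum.inl.inj hi).symm

lemma noSink_card [Fintype V] (φ : Fin k → O) (m : ℕ)
    (hm : ∀ o, Nat.card {c : Fin k // φ c = o} ≤ m) (t : V) :
    Nat.card (NoSink P φ t) * k ≤ Nat.card (G.Tables k) * m := by
  refine count_fiber t (NoSink P φ t) m (fun J => ?_)
  rcases isEmpty_or_nonempty {c : Fin k // G.upd J t c ∈ NoSink P φ t} with hemp | ⟨⟨c, hc1, hc2⟩⟩
  · rw [Nat.card_of_isEmpty]
    exact Nat.zero_le _
  · refine le_trans ?_ (hm (φ c))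
    refine Nat.card_le_card_of_injective (fun d => ⟨d.1, ?_⟩) ?_
    · obtain ⟨d, hd1, hd2⟩ := d
      have hst : ∀ j, P.state (G.upd J t d) j = P.state (G.upd J t c) j := fun j =>
        state_upd J t c d j (fun i _ => hc2 i)
      have h1 : P.Outputs (G.upd J t d) (φ c) := by
        obtain ⟨j, hj⟩ := hc1
        rw [Dag.val_upd_self] at hj
        exact ⟨j, by rw [hst, hj]⟩
      rw [Dag.val_upd_self] at hd1
      exact Program.outputs_unique hd1 h1
    · rintro ⟨d, hd⟩ ⟨d', hd'⟩ h
      have h1 := congrArg (fun z => z.1) h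
      exact Subtype.ext h1

/-- no other predecessor of `v` can be reached from `u` -/
def Tight (G : Dag V) (u v : V) : Prop :=
  ∀ w ∈ G.pred v, ¬ Relation.TransGen (fun a b => a ∈ G.pred b) u w

lemma badE_fiber [Fintype V] {u v : V} (hinc : Tight G u v) (huv : u ∈ G.pred v)
    (J : G.Tables k) : Nat.card {c : Fin k // G.upd J u c ∈ BadE P ρ u v} * ρ ≤ k := by
  classical
  rcases isEmpty_or_nonempty {c : Fin k // G.upd J u c ∈ BadE P ρ u v} with hemp | ⟨⟨d, hd⟩⟩
  · rw [Nat.card_of_isEmpty, zero_mul]
    exact Nat.zero_le _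
  · have hs := hd.1 v {u} (by
      intro x hx
      rw [Finset.mem_singleton] at hx
      exact hx ▸ huv)
    rw [Finset.card_singleton, pow_one, pow_one] at hs
    refine le_trans (Nat.mul_le_mul_right _ ?_) hs
    have hmem : ∀ c : Fin k, G.upd J u c ∈ BadE P ρ u v →
        P.Reads (G.upd J u d) ⟨v, G.args (G.upd J u c) v⟩ ∧
          ∀ w : {w // w ∈ G.pred v}, w.1 ∉ ({u} : Finset V) →
            G.args (G.upd J u c) v w = G.args (G.upd J u d) v w := by
      intro c hc
      obtain ⟨_, j, hj1, hj2⟩ := hc
      refine ⟨⟨j, ?_⟩, ?_⟩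
      · rw [state_upd J u c d j hj2]
        exact hj1
      · intro w hw
        rw [Finset.mem_singleton] at hw
        have hT := hinc w.1 w.2
        unfold Dag.args
        rw [Dag.val_upd _ _ _ _ hw hT, Dag.val_upd _ _ _ _ hw hT]
    refine Nat.card_le_card_of_injective
      (fun c => ⟨G.args (G.upd J u c.1) v, hmem c.1 c.2⟩) ?_
    rintro ⟨c, hc⟩ ⟨c', hc'⟩ heq
    have h1 := congrArg Subtype.val heq
    have h2 := congrFun h1 ⟨u, huv⟩
    unfold Dag.args at h2
    simp only at h2
    rw [Dag.val_upd_self, Dag.val_upd_self] at h2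
    exact Subtype.ext h2

lemma badE_card [Fintype V] (hk : 0 < k) {u v : V} (hinc : Tight G u v) (huv : u ∈ G.pred v) :
    Nat.card (BadE P ρ u v) * ρ ≤ Nat.card (G.Tables k) := by
  rcases Nat.eq_zero_or_pos ρ with h0 | h0
  · rw [h0, mul_zero]
    exact Nat.zero_le _
  have h := count_fiber u (BadE P ρ u v) (k / ρ) (fun J => by
    rw [Nat.le_div_iff_mul_le h0]
    exact badE_fiber hinc huv J)
  have h2 : Nat.card (BadE P ρ u v) * ρ * k ≤ Nat.card (G.Tables k) * k := by
    calc Nat.card (BadE P ρ u v) * ρ * k = (Nat.card (BadE P ρ u v) * k) * ρ := by ring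
      _ ≤ (Nat.card (G.Tables k) * (k / ρ)) * ρ := Nat.mul_le_mul_right _ h
      _ = Nat.card (G.Tables k) * (k / ρ * ρ) := by ring
      _ ≤ _ := Nat.mul_le_mul_left _ (Nat.div_mul_le_self _ _)
  exact Nat.le_of_mul_le_mul_right h2 hk

/-- the order of readings along tight edges implies the order along all edges -/
lemma order_all (I : G.Tables k)
    (h : ∀ u v, u ∈ G.pred v → Tight G u v → ∀ j, At P I j v → ∃ i < j, At P I i u) :
    ∀ n, ∀ u v, u ∈ G.pred v → G.rank v ≤ G.rank u + n → ∀ j, At P I j v → ∃ i < j, At P I i u := by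
  intro n
  induction n with
  | zero =>
    intro u v huv hr
    have := G.lt v u huv
    omega
  | succ n ih =>
    intro u v huv hr
    by_cases ht : Tight G u v
    · exact h u v huv ht
    · unfold Tight at ht
      push Not at ht
      obtain ⟨w, hw, huw⟩ := ht
      have hpath : ∀ a b, Relation.TransGen (fun a b => a ∈ G.pred b) a b →
          G.rank b ≤ G.rank a + n → ∀ j, At P I j b → ∃ i < j, At P I i a := by
        intro a b hab
        induction hab with
        | single h1 => exact fun hr => ih _ _ h1 hr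
        | tail hac hcb ih2 =>
          rename_i c b
          intro hr j hj
          have h1 := Dag.rank_lt_of_trans hac
          have h2 := G.lt _ _ hcb
          obtain ⟨i, hi, hic⟩ := ih c b hcb (by omega) j hj
          obtain ⟨i', hi', hia⟩ := ih2 (by omega) i hic
          exact ⟨i', hi'.trans hi, hia⟩
      intro j hj
      have h1 := Dag.rank_lt_of_trans huw
      have h2 := G.lt v w hw
      obtain ⟨i, hi, hiw⟩ := ih w v hw (by omega) j hj
      obtain ⟨i', hi', hiu⟩ := hpath u w huw (by omega) i hiw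
      exact ⟨i', hi'.trans hi, hiu⟩

end bad

end Pool.Agent.W988.SR
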