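import Pool.Agent.W988.SR.Defs

/-! Basic lemmas. -/

set_option autoImplicit false

namespace Pool.Agent.W988.SR

open Finset

section dag

variable {V : Type} {G : Dag V} {k : ℕ}

lemma Dag.val_eq (I : G.Tables k) (v : V) : G.val I v = I ⟨v, G.args I v⟩ := by
  rw [Dag.val]
  rfl

/-- the relation `a` is a predecessor of `b` -/
def Dag.Edge (G : Dag V) (a b : V) : Prop := a ∈ G.pred b

lemma Dag.rank_lt_of_trans {a b : V} (h : Relation.TransGen (fun a b => a ∈ G.pred b) a b) :
    G.rank a < G.rank b := by
  induction h with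
  | single h => exact G.lt _ _ h
  | tail _ h ih => exact ih.trans (G.lt _ _ h)

/-- change the right entry of `u` -/
noncomputable def Dag.upd (G : Dag V) (I : G.Tables k) (u : V) (c : Fin k) : G.Tables k := by
  classical exact Function.update I ⟨u, G.args I u⟩ c

lemma Dag.upd_same (I : G.Tables k) (u : V) (c : Fin k) : G.upd I u c ⟨u, G.args I u⟩ = c := by
  classical
  unfold Dag.upd
  exact Function.update_self _ _ _

lemma Dag.upd_ne (I : G.Tables k) (u : V) (c : Fin k) {e : G.Entry k}
    (h : e ≠ ⟨u, G.args I u⟩) : G.upd I u c e = I e := by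
  classical
  unfold Dag.upd
  exact Function.update_of_ne h _ _

lemma Dag.val_upd (I : G.Tables k) (u : V) (c : Fin k) :
    ∀ w, w ≠ u → ¬ Relation.TransGen (fun a b => a ∈ G.pred b) u w →
      G.val (G.upd I u c) w = G.val I w := by
  have key : ∀ n, ∀ w, G.rank w < n → w ≠ u →
      ¬ Relation.TransGen (fun a b => a ∈ G.pred b) u w →
      G.val (G.upd I u c) w = G.val I w := by
    intro n
    induction n with
    | zero => intro w h; omega
    | succ n ih =>
      intro w hw hne hT
      have hargs : G.args (G.upd I u c) w = G.args I w := by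
        funext x
        have hx := G.lt w x.1 x.2
        refine ih x.1 (by omega) ?_ ?_
        · intro h
          exact hT (Relation.TransGen.single (h ▸ x.2))
        · intro h
          exact hT (h.tail x.2)
      rw [Dag.val_eq, Dag.val_eq, hargs]
      apply Dag.upd_ne
      intro h
      exact hne (congrArg Sigma.fst h)
  intro w
  exact key _ w (Nat.lt_succ_self _)

lemma Dag.args_upd (I : G.Tables k) (u : V) (c : Fin k) : G.args (G.upd I u c) u = G.args I u := by
  funext x
  have hx := G.lt u x.1 x.2
  refine Dag.val_upd I u c x.1 ?_ ?_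
  · intro h
    rw [h] at hx
    exact lt_irrefl _ hx
  · intro h
    have := Dag.rank_lt_of_trans h
    omega

lemma Dag.val_upd_self (I : G.Tables k) (u : V) (c : Fin k) : G.val (G.upd I u c) u = c := by
  rw [Dag.val_eq, Dag.args_upd, Dag.upd_same]

lemma Dag.upd_upd (I : G.Tables k) (u : V) (c d : Fin k) :
    G.upd (G.upd I u c) u d = G.upd I u d := by
  classical
  funext e
  by_cases h : e = ⟨u, G.args I u⟩
  · subst h
    rw [Dag.upd_same]
    have := Dag.upd_same (G.upd I u c) u d
    rwa [Dag.args_upd] at this
  · rw [Dag.upd_ne _ _ _ h, Dag.upd_ne _ _ _ (by rwa [Dag.args_upd]), Dag.upd_ne _ _ _ h]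

lemma Dag.upd_val (I : G.Tables k) (u : V) : G.upd I u (G.val I u) = I := by
  classical
  funext e
  by_cases h : e = ⟨u, G.args I u⟩
  · subst h
    rw [Dag.upd_same, Dag.val_eq]
  · rw [Dag.upd_ne _ _ _ h]

end dag

section prog

variable {X Q O : Type} {k : ℕ} {P : Program X k Q O}

lemma Program.state_succ (x : X → Fin k) (j : ℕ) :
    P.state x (j + 1) = P.step x (P.state x j) := by
  unfold Program.state
  rw [Function.iterate_succ_apply']

lemma Program.state_congr (x y : X → Fin k) (j : ℕ)
    (h : ∀ i < j, ∀ e, P.act (P.state x i) = Sum.inr e → x e = y e) :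
    P.state y j = P.state x j := by
  induction j with
  | zero => rfl
  | succ j ih =>
    have ih' := ih (fun i hi => h i (by omega))
    rw [Program.state_succ, Program.state_succ, ih']
    unfold Program.step
    have hj := h j (by omega)
    cases hact : P.act (P.state x j) with
    | inl a => rfl
    | inr e =>
      simp only
      rw [hj e hact]

end prog

section count

variable {V : Type} [Fintype V] {G : Dag V} {k : ℕ}

lemma count_fiber (u : V) (S : Set (G.Tables k)) (m : ℕ)
    (h : ∀ J, Nat.card {c : Fin k // G.upd J u c ∈ S} ≤ m) :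
    Nat.card S * k ≤ Nat.card (G.Tables k) * m := by
  classical
  have hinj : Function.Injective (fun z : S × Fin k =>
      (⟨G.upd z.1.1 u z.2, ⟨G.val z.1.1 u, by
        rw [Dag.upd_upd, Dag.upd_val]; exact z.1.2⟩⟩ :
        Σ J : G.Tables k, {c : Fin k // G.upd J u c ∈ S})) := by
    rintro ⟨⟨I, hI⟩, c⟩ ⟨⟨I', hI'⟩, c'⟩ hz
    simp only at hz
    have h1 : G.upd I u c = G.upd I' u c' := congrArg Sigma.fst hz
    have h2 : G.val I u = G.val I' u := by
      have : ∀ (z z' : Σ J : G.Tables k, {c : Fin k // G.upd J u c ∈ S}), z = z' →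
          z.2.1 = z'.2.1 := by
        rintro z z' rfl
        rfl
      exact this _ _ hz
    have h3 : I = I' := by
      rw [← Dag.upd_val I u, ← Dag.upd_val I' u, h2, ← Dag.upd_upd I u c, h1, Dag.upd_upd]
    have h4 : c = c' := by
      rw [← Dag.val_upd_self I u c, h1, Dag.val_upd_self]
    subst h3
    subst h4
    rfl
  have h1 := Nat.card_le_card_of_injective _ hinj
  rw [Nat.card_prod, Nat.card_eq_fintype_card (α := Fin k), Fintype.card_fin] at h1
  refine h1.trans ?_
  rw [Nat.card_sigma]
  calc ∑ J, Nat.card {c : Fin k // G.upd J u c ∈ S} ≤ ∑ _J : G.Tables k, m :=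
        Finset.sum_le_sum fun J _ => h J
    _ = _ := by rw [Finset.sum_const, Finset.card_univ, smul_eq_mul, Nat.card_eq_fintype_card]

end count

end Pool.Agent.W988.SR
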