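import Pool.Agent.W988.SR.Encode

/-! The bottleneck and the counting. -/

set_option autoImplicit false

namespace Pool.Agent.W988.SR

open Finset

section cnt

variable {V Q O : Type} {G : Dag V} {k : ℕ} (P : Program (G.Entry k) k Q O) (ρ : ℕ)

/-- the inputs on which the right entries are read in the order of a pebbling -/
def Good (t : V) : Set (G.Tables k) :=
  {I | ReadsSparsely G P ρ I ∧ (∃ j, At P I j t) ∧
    ∀ j v, At P I j v → ∀ u ∈ G.pred v, ∃ i < j, At P I i u}

variable {P ρ}

open Classical in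
/-- the live nodes -/
noncomputable def Live [Fintype V] (P : Program (G.Entry k) k Q O) (I : G.Tables k) (s : ℕ) :
    Finset V := univ.filter (fun u => IsLive P I s u)

lemma mem_live [Fintype V] {I : G.Tables k} {s : ℕ} {u : V} :
    u ∈ Live P I s ↔ IsLive P I s u := by
  classical
  unfold Live
  simp

/-- some node has no predecessors -/
lemma exists_source [Fintype V] (G : Dag V) (t : V) : ∃ v : V, G.pred v = ∅ := by
  obtain ⟨v, _, hv⟩ := Finset.exists_min_image (univ : Finset V) G.rank ⟨t, mem_univ t⟩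
  refine ⟨v, Finset.eq_empty_of_forall_notMem fun u hu => ?_⟩
  have h1 := G.lt v u hu
  have h2 := hv u (mem_univ u)
  omega

lemma isLive_of_not_at {I : G.Tables k} {s : ℕ} {u : V} (h : IsLive P I (s + 1) u)
    (hn : ¬ At P I s u) : IsLive P I s u := by
  obtain ⟨j, hj, hno⟩ := h
  refine ⟨j + 1, ?_, fun i hi => ?_⟩
  · have : s + 1 + j = s + (j + 1) := by ring
    rwa [this] at hj
  · rcases Nat.eq_zero_or_pos i with h0 | h0
    · rw [h0]
      exact hn
    · have := hno (i - 1) (by omega)
      have h2 : s + 1 + (i - 1) = s + i := by omega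
      rwa [h2] at this

lemma exists_time [Fintype V] {t : V} {p : ℕ} (hp : 2 ≤ p) (hneed : G.NeedsPebbles t p)
    {I : G.Tables k} (hI : I ∈ Good P ρ t) : ∃ s, p ≤ (Live P I s).card := by
  classical
  obtain ⟨_, ⟨jt, hjt⟩, hord⟩ := hI
  have h0 : (fun i => if i ≤ jt then Live P I i else {t}) 0 = (∅ : Finset V) := by
    simp only [Nat.zero_le, if_true]
    apply Finset.eq_empty_of_forall_notMem
    intro u hu
    rw [mem_live] at hu
    obtain ⟨j, ⟨v, hv, hAt⟩, hno⟩ := hu
    obtain ⟨i, hi, hiu⟩ := hord _ v hAt u hv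
    rw [zero_add] at hi
    apply hno i hi
    rwa [zero_add]
  have hT : t ∈ (fun i => if i ≤ jt then Live P I i else {t}) (jt + 1) := by
    simp
  have hst : ∀ i < jt + 1, ∃ v, G.pred v ⊆ (fun i => if i ≤ jt then Live P I i else {t}) i ∧
      ∀ u ∈ (fun i => if i ≤ jt then Live P I i else {t}) (i + 1),
        u = v ∨ u ∈ (fun i => if i ≤ jt then Live P I i else {t}) i := by
    intro i hi
    have hi' : i ≤ jt := by omega
    simp only [if_pos hi']
    have hstep : ∀ v, At P I i v → G.pred v ⊆ Live P I i := by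
      intro v hv u hu
      rw [mem_live]
      exact ⟨0, ⟨v, hu, hv⟩, fun i hi => absurd hi (Nat.not_lt_zero _)⟩
    rcases Nat.lt_or_ge i jt with hlt | hge
    · have h2 : i + 1 ≤ jt := hlt
      simp only [if_pos h2]
      by_cases hex : ∃ v, At P I i v
      · obtain ⟨v, hv⟩ := hex
        refine ⟨v, hstep v hv, fun u hu => ?_⟩
        rw [mem_live] at hu
        by_cases hu2 : At P I i u
        · exact Or.inl (hu2.unique hv)
        · right
          rw [mem_live]
          exact isLive_of_not_at hu hu2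
      · push Not at hex
        obtain ⟨v, hv⟩ := exists_source G t
        refine ⟨v, by rw [hv]; exact Finset.empty_subset _, fun u hu => ?_⟩
        rw [mem_live] at hu
        right
        rw [mem_live]
        exact isLive_of_not_at hu (hex u)
    · have h2 : i = jt := by omega
      subst h2
      refine ⟨t, hstep t hjt, fun u hu => ?_⟩
      left
      simpa using hu
  obtain ⟨i, hi, hcard⟩ := hneed (jt + 1) _ h0 hT hst
  by_cases h : i ≤ jt
  · simp only [if_pos h] at hcard
    exact ⟨i, hcard⟩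
  · simp only [if_neg h, card_singleton] at hcard
    omega

/-! ### labels -/

open Classical in
/-- the edges that reveal the live nodes -/
noncomputable def DF [Fintype V] (P : Program (G.Entry k) k Q O) (I : G.Tables k) (s : ℕ) :
    Finset (V × V) := univ.filter (fun z => DE P I s z.1 z.2)

open Classical in
/-- the numbers of the revealing entries -/
noncomputable def io (P : Program (G.Entry k) k Q O) (I : G.Tables k) (s : ℕ) (x : V) : ℕ :=
  if ∃ u, DE P I s u x then Nat.card (AS P I s x) else 0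

lemma mem_DF [Fintype V] {I : G.Tables k} {s : ℕ} {z : V × V} :
    z ∈ DF P I s ↔ DE P I s z.1 z.2 := by
  classical
  unfold DF
  simp

open Classical in
/-- the heads of the edges into `x` -/
noncomputable def UD [Fintype V] (D : Finset (V × V)) (x : V) : Finset V :=
  univ.filter (fun u => (u, x) ∈ D)

lemma mem_UD [Fintype V] {D : Finset (V × V)} {x u : V} : u ∈ UD D x ↔ (u, x) ∈ D := by
  classical
  unfold UD
  simp

lemma card_DF_eq_sum [Fintype V] (D : Finset (V × V)) : ∑ x, (UD D x).card = D.card := by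
  classical
  rw [Finset.card_eq_sum_card_fiberwise (f := Prod.snd) (t := univ) (fun _ _ => mem_univ _)]
  refine Finset.sum_congr rfl fun x _ => ?_
  refine Finset.card_bij (fun u _ => (u, x)) ?_ ?_ ?_
  · intro u hu
    rw [mem_UD] at hu
    rw [mem_filter]
    exact ⟨hu, rfl⟩
  · intro u _ u' _ h
    exact congrArg Prod.fst h
  · rintro ⟨u, y⟩ hz
    rw [mem_filter] at hz
    obtain ⟨h1, h2⟩ := hz
    simp only at h2
    subst h2
    exact ⟨u, by rw [mem_UD]; exact h1, rfl⟩

lemma card_live [Fintype V] {I : G.Tables k} {s : ℕ} : (Live P I s).card = (DF P I s).card := by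
  classical
  have h : Live P I s = (DF P I s).image Prod.fst := by
    ext u
    rw [mem_live, mem_image]
    constructor
    · intro hu
      obtain ⟨x, hx⟩ := exists_de hu
      exact ⟨(u, x), by rw [mem_DF]; exact hx, rfl⟩
    · rintro ⟨⟨u', x⟩, hz, rfl⟩
      rw [mem_DF] at hz
      exact hz.1
  rw [h]
  apply Finset.card_image_of_injOn
  rintro ⟨u, x⟩ hz ⟨u', x'⟩ hz' heq
  simp only at heq
  subst heq
  rw [mem_coe, mem_DF] at hz hz'
  have := de_unique hz hz'
  simp only at this
  rw [this]

lemma io_bound [Fintype V] {t : V} {I : G.Tables k} (hI : I ∈ Good P ρ t) (s : ℕ) (x : V) :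
    (io P I s x + 1) * ρ ^ (UD (DF P I s) x).card ≤ k ^ (UD (DF P I s) x).card := by
  classical
  by_cases hex : ∃ u, DE P I s u x
  · have hio : io P I s x = Nat.card (AS P I s x) := by
      unfold io
      rw [if_pos hex]
    have hsp := hI.1 x (UD (DF P I s) x) (by
      intro u hu
      rw [mem_UD, mem_DF] at hu
      exact hu.2.1)
    refine le_trans (Nat.mul_le_mul_right _ ?_) hsp
    rw [hio]
    obtain ⟨u, hu⟩ := hex
    have hfa : At P I (s + fa P I s x) x := at_fa hu.2.2
    have hnot : G.args I x ∉ AS P I s x := by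
      rintro ⟨⟨i, hi, hα⟩, _⟩
      have := fa_le (P := P) (I := I) (s := s) (j := i) (u := x) hα
      omega
    have hsub : insert (G.args I x) (AS P I s x) ⊆
        {α : G.Args k x | P.Reads I ⟨x, α⟩ ∧
          ∀ w : {w // w ∈ G.pred x}, w.1 ∉ UD (DF P I s) x → α w = G.args I x w} := by
      intro α hα
      rcases Set.mem_insert_iff.1 hα with rfl | hα
      · exact ⟨⟨_, hfa⟩, fun _ _ => rfl⟩
      · obtain ⟨⟨i, _, hα1⟩, hα2⟩ := hα
        refine ⟨⟨_, hα1⟩, fun w hw => hα2 w ?_⟩
        intro hd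
        apply hw
        rw [mem_UD, mem_DF]
        exact hd
    have h1 := Set.ncard_le_ncard hsub (Set.toFinite _)
    rw [Set.ncard_insert_of_notMem hnot (Set.toFinite _)] at h1
    rw [Nat.card_coe_set_eq]
    exact h1
  · have hio : io P I s x = 0 := by
      unfold io
      rw [if_neg hex]
    have hU : UD (DF P I s) x = ∅ := by
      apply Finset.eq_empty_of_forall_notMem
      intro u hu
      rw [mem_UD, mem_DF] at hu
      exact hex ⟨u, hu⟩
    rw [hio, hU]
    simp

/-- a bottleneck -/
noncomputable def tm [Fintype V] (P : Program (G.Entry k) k Q O) (p : ℕ) (I : G.Tables k) : ℕ := by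
  classical exact if h : ∃ s, p ≤ (Live P I s).card then h.choose else 0

lemma tm_spec [Fintype V] {t : V} {p : ℕ} (hp : 2 ≤ p) (hneed : G.NeedsPebbles t p)
    {I : G.Tables k} (hI : I ∈ Good P ρ t) : p ≤ (DF P I (tm P p I)).card := by
  classical
  have h := exists_time hp hneed hI
  rw [← card_live]
  unfold tm
  rw [dif_pos h]
  exact h.choose_spec

/-- The inputs with a given label. -/
def Cls [Fintype V] (P : Program (G.Entry k) k Q O) (ρ : ℕ) (t : V) (p : ℕ) (q : Q)
    (D : Finset (V × V)) (i : V → ℕ) : Set (G.Tables k) :=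
  {I | I ∈ Good P ρ t ∧ P.state I (tm P p I) = q ∧ DF P I (tm P p I) = D ∧
    io P I (tm P p I) = i}

lemma card_cls [Fintype V] (t : V) (p : ℕ) (q : Q) (D : Finset (V × V)) (i : V → ℕ) :
    Nat.card (Cls P ρ t p q D i) * k ^ D.card ≤ Nat.card (G.Tables k) := by
  classical
  rcases isEmpty_or_nonempty (Cls P ρ t p q D i) with hemp | ⟨⟨I₀, hI₀⟩⟩
  · rw [Nat.card_of_isEmpty, zero_mul]
    exact Nat.zero_le _
  have hlive : ∀ I ∈ Cls P ρ t p q D i, ∀ u, IsLive P I (tm P p I) u ↔ u ∈ D.image Prod.fst := by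
    intro I hI u
    rw [mem_image, ← hI.2.2.1]
    constructor
    · intro hu
      obtain ⟨x, hx⟩ := exists_de hu
      exact ⟨(u, x), by rw [mem_DF]; exact hx, rfl⟩
    · rintro ⟨⟨u', x⟩, hz, rfl⟩
      rw [mem_DF] at hz
      exact hz.1
  have hcard : (D.image Prod.fst).card = D.card := by
    have h1 : Live P I₀ (tm P p I₀) = D.image Prod.fst := by
      ext u
      rw [mem_live]
      exact hlive I₀ hI₀ u
    rw [← h1, card_live, hI₀.2.2.1]
  have hfun : Nat.card ({u // u ∈ D.image Prod.fst} → Fin k) = k ^ D.card := by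
    rw [Nat.card_eq_fintype_card, Fintype.card_fun, Fintype.card_fin, Fintype.card_coe, hcard]
  rw [← hfun, ← Nat.card_prod]
  refine Nat.card_le_card_of_injective
    (fun z : (Cls P ρ t p q D i) × ({u // u ∈ D.image Prod.fst} → Fin k) =>
      ovr (IsLive P z.1.1 (tm P p z.1.1)) z.1.1
        (fun u => if h : u ∈ D.image Prod.fst then z.2 ⟨u, h⟩ else G.val z.1.1 u)) ?_
  rintro ⟨⟨I, hI⟩, c⟩ ⟨⟨I', hI'⟩, c'⟩ heq
  simp only at heq
  have hD : ∀ u x, DE P I (tm P p I) u x ↔ DE P I' (tm P p I') u x := by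
    intro u x
    have h1 : (u, x) ∈ DF P I (tm P p I) ↔ (u, x) ∈ DF P I' (tm P p I') := by
      rw [hI.2.2.1, hI'.2.2.1]
    rwa [mem_DF, mem_DF] at h1
  have hι : ∀ x, (∃ u, DE P I (tm P p I) u x) →
      Nat.card (AS P I (tm P p I) x) = Nat.card (AS P I' (tm P p I') x) := by
    intro x hx
    have hx' : ∃ u, DE P I' (tm P p I') u x := by
      obtain ⟨u, hu⟩ := hx
      exact ⟨u, (hD u x).1 hu⟩
    have h1 : io P I (tm P p I) x = io P I' (tm P p I') x := by
      rw [hI.2.2.2, hI'.2.2.2]
    unfold io at h1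
    rwa [if_pos hx, if_pos hx'] at h1
  obtain ⟨h1, h2⟩ := decode (by rw [hI.2.1, hI'.2.1]) hD hι _ _ heq
  subst h1
  have h3 : c = c' := by
    funext u
    have := h2 u.1 ((hlive I hI u.1).2 u.2)
    rwa [dif_pos u.2, dif_pos u.2] at this
  subst h3
  rfl

end cnt

end Pool.Agent.W988.SR
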