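import Mathlib

/-!
# Evaluating a directed acyclic graph of tables; programs that read few entries

Definitions.
-/

set_option autoImplicit false

namespace Pool.Agent.W988.SR

/-- A directed acyclic graph with node set `V`: every node has a finite set of predecessors, which
have smaller rank. -/
structure Dag (V : Type) where
  /-- the predecessors of a node -/
  pred : V → Finset V
  /-- a rank that shows that the graph is acyclic -/
  rank : V → ℕ
  /-- the predecessors have smaller rank -/
  lt : ∀ v, ∀ u ∈ pred v, rank u < rank v

namespace Dag

variable {V : Type} (G : Dag V) (k : ℕ)

/-- The arguments of the table of the node `v`: one value for each predecessor of `v`. -/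
abbrev Args (v : V) : Type := {u // u ∈ G.pred v} → Fin k

/-- The entries of the tables: a node and an argument of its table. -/
abbrev Entry : Type := Σ v : V, G.Args k v

/-- An input: the values of all entries of all tables. (The table of a node without predecessors
has one entry.) -/
abbrev Tables : Type := G.Entry k → Fin k

variable {k}

/-- The value of a node: the entry of its table at the values of its predecessors. -/
def val {V : Type} {k : ℕ} (G : Dag V) (I : G.Tables k) (v : V) : Fin k :=
  I ⟨v, fun u => val G I u.1⟩
termination_by G.rank v
decreasing_by exact G.lt v u.1 u.2

/-- The values of the predecessors of `v`. The entry `⟨v, G.args I v⟩` is the right entry of the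
table of `v`. -/
def args (I : G.Tables k) (v : V) : G.Args k v := fun u => G.val I u.1

/-- The number of edges. -/
def edges [Fintype V] : ℕ := ∑ v, (G.pred v).card

/-- The black pebble game: a step removes any pebbles and places at most one pebble, on a node all
of whose predecessors carry a pebble before the step. `G.NeedsPebbles t p` says that every sequence
of steps from the empty graph to a position with a pebble on `t` contains a position with at least
`p` pebbles. -/
def NeedsPebbles (t : V) (p : ℕ) : Prop :=
  ∀ (T : ℕ) (C : ℕ → Finset V), C 0 = ∅ → t ∈ C T →
    (∀ i < T, ∃ v, G.pred v ⊆ C i ∧ ∀ u ∈ C (i + 1), u = v ∨ u ∈ C i) → ∃ i ≤ T, p ≤ (C i).card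

end Dag

/-- A deterministic branching program with set of states `Q` that reads variables from `X` with
values in `Fin k` and outputs an element of `O`. -/
structure Program (X : Type) (k : ℕ) (Q O : Type) where
  /-- the first state -/
  start : Q
  /-- what happens in a state: the program stops with an output, or it reads a variable -/
  act : Q → O ⊕ X
  /-- the next state, given the value of the variable that was read -/
  next : Q → Fin k → Q

namespace Program

variable {X Q O : Type} {k : ℕ} (P : Program X k Q O)

/-- One step on the input `x`; nothing changes any more when the program has stopped. -/
def step (x : X → Fin k) (q : Q) : Q :=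
  match P.act q with
  | .inl _ => q
  | .inr e => P.next q (x e)

/-- The state after `j` steps on the input `x`. -/
def state (x : X → Fin k) (j : ℕ) : Q := (P.step x)^[j] P.start

/-- On the input `x` the program stops with output `a`. -/
def Outputs (x : X → Fin k) (a : O) : Prop := ∃ j, P.act (P.state x j) = Sum.inl a

/-- On the input `x` the program reads the variable `e` (at least once). -/
def Reads (x : X → Fin k) (e : X) : Prop := ∃ j, P.act (P.state x j) = Sum.inr e

end Program

/-- The program reads `I` sparsely: for every node `v` and every set `U` of predecessors of `v`,
among the `k ^ |U|` entries of the table of `v` that agree with the right entry outside `U`, at most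
`(k / ρ) ^ |U|` are read. -/
def ReadsSparsely {V Q O : Type} {k : ℕ} (G : Dag V) (P : Program (G.Entry k) k Q O) (ρ : ℕ)
    (I : G.Tables k) : Prop :=
  ∀ v, ∀ U ⊆ G.pred v,
    Nat.card {α : G.Args k v // P.Reads I ⟨v, α⟩ ∧ ∀ u, u.1 ∉ U → α u = G.args I v u} *
      ρ ^ U.card ≤ k ^ U.card

end Pool.Agent.W988.SR
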