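import Pool.Agent.W988.SR.Bad

/-! The input is determined by the state at a bottleneck, a label, and the input with the values of
the live nodes overwritten. -/

set_option autoImplicit false

namespace Pool.Agent.W988.SR

open Finset

section enc

variable {V Q O : Type} {G : Dag V} {k : ℕ} (P : Program (G.Entry k) k Q O)

/-- the value of `u` is used at time `j` -/
def Use (I : G.Tables k) (j : ℕ) (u : V) : Prop := ∃ v, u ∈ G.pred v ∧ At P I j v

/-- the value of `u` is used at or after time `s` and not read again before -/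
def IsLive (I : G.Tables k) (s : ℕ) (u : V) : Prop :=
  ∃ j, Use P I (s + j) u ∧ ∀ i < j, ¬ At P I (s + i) u

/-- time of the first use, counted from `s` -/
noncomputable def fu (I : G.Tables k) (s : ℕ) (u : V) : ℕ := sInf {i | Use P I (s + i) u}

/-- time of the first reading of the right entry, counted from `s` -/
noncomputable def fa (I : G.Tables k) (s : ℕ) (x : V) : ℕ := sInf {i | At P I (s + i) x}

/-- `u` is live and `x` is the first node that uses it -/
def DE (I : G.Tables k) (s : ℕ) (u x : V) : Prop :=
  IsLive P I s u ∧ u ∈ G.pred x ∧ At P I (s + fu P I s u) x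

/-- the entries of the table of `x` read before the right one that agree with it at the
predecessors that do not have to be revealed -/
def AS (I : G.Tables k) (s : ℕ) (x : V) : Set (G.Args k x) :=
  {α | (∃ i < fa P I s x, P.act (P.state I (s + i)) = Sum.inr ⟨x, α⟩) ∧
    ∀ w : {w // w ∈ G.pred x}, ¬ DE P I s w.1 x → α w = G.args I x w}

/-- overwrite the values of the nodes in `L` -/
noncomputable def ovr (L : V → Prop) (I : G.Tables k) (c : V → Fin k) : G.Tables k := by
  classical exact fun e => if L e.1 ∧ e.2 = G.args I e.1 then c e.1 else I e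

variable {P}

lemma use_fu {I : G.Tables k} {s : ℕ} {u : V} (h : IsLive P I s u) :
    Use P I (s + fu P I s u) u := by
  obtain ⟨j, hj, _⟩ := h
  exact Nat.sInf_mem (s := {i | Use P I (s + i) u}) ⟨j, hj⟩

lemma fu_le {I : G.Tables k} {s j : ℕ} {u : V} (h : Use P I (s + j) u) : fu P I s u ≤ j :=
  Nat.sInf_le h

lemma fa_le {I : G.Tables k} {s j : ℕ} {u : V} (h : At P I (s + j) u) : fa P I s u ≤ j :=
  Nat.sInf_le h

lemma at_fa {I : G.Tables k} {s j : ℕ} {u : V} (h : At P I (s + j) u) :
    At P I (s + fa P I s u) u :=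
  Nat.sInf_mem (s := {i | At P I (s + i) u}) ⟨j, h⟩

lemma exists_de {I : G.Tables k} {s : ℕ} {u : V} (h : IsLive P I s u) : ∃ x, DE P I s u x := by
  obtain ⟨x, hx, hAt⟩ := use_fu h
  exact ⟨x, h, hx, hAt⟩

lemma de_unique {I : G.Tables k} {s : ℕ} {u x y : V} (h : DE P I s u x) (h' : DE P I s u y) :
    x = y := h.2.2.unique h'.2.2

lemma not_self_pred (G : Dag V) (v : V) : v ∉ G.pred v := fun h => lt_irrefl _ (G.lt v v h)

/-- the two computations agree up to step `j` after the times `s`, `s'` -/
def Agree (P : Program (G.Entry k) k Q O) (I I' : G.Tables k) (s s' j : ℕ) : Prop :=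
  (∀ i ≤ j, P.state I (s + i) = P.state I' (s' + i)) ∧
    ∀ i < j, ∀ v, (At P I (s + i) v ∨ At P I' (s' + i) v) →
      At P I (s + i) v ∧ At P I' (s' + i) v ∧ G.args I v = G.args I' v ∧
        G.val I v = G.val I' v

lemma Agree.symm {I I' : G.Tables k} {s s' j : ℕ} (h : Agree P I I' s s' j) :
    Agree P I' I s' s j := by
  refine ⟨fun i hi => (h.1 i hi).symm, fun i hi v hv => ?_⟩
  obtain ⟨h1, h2, h3, h4⟩ := h.2 i hi v hv.symm
  exact ⟨h2, h1, h3.symm, h4.symm⟩

lemma args_apply (I : G.Tables k) (v : V) (w : {w // w ∈ G.pred v}) :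
    G.args I v w = G.val I w.1 := rfl

lemma val_eq_of_use {I I' : G.Tables k} {s s' j i : ℕ} (h : Agree P I I' s s' j) (hi : i < j)
    {u : V} (hu : Use P I (s + i) u) : G.val I u = G.val I' u := by
  obtain ⟨v, hv, hAt⟩ := hu
  have h1 := (h.2 i hi v (Or.inl hAt)).2.2.1
  exact congrFun h1 ⟨u, hv⟩

/-- The main step. -/
lemma side [Finite V] {I I' : G.Tables k} {s s' j : ℕ} (h : Agree P I I' s s' j)
    (hD : ∀ u x, DE P I s u x ↔ DE P I' s' u x)
    (hι : ∀ x, (∃ u, DE P I s u x) → Nat.card (AS P I s x) = Nat.card (AS P I' s' x))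
    (hJ : ∀ e : G.Entry k, ¬ (IsLive P I s e.1 ∧ e.2 = G.args I e.1) →
      ¬ (IsLive P I s e.1 ∧ e.2 = G.args I' e.1) → I e = I' e)
    {v : V} (hAt : At P I (s + j) v) :
    G.args I v = G.args I' v ∧ G.val I v = G.val I' v := by
  classical
  -- predecessors that are known already
  have hknown : ∀ w ∈ G.pred v, ¬ DE P I s w v → G.val I w = G.val I' w := by
    intro w hw hnd
    by_cases hl : IsLive P I s w
    · have hle : fu P I s w ≤ j := fu_le ⟨v, hw, hAt⟩
      rcases Nat.lt_or_ge (fu P I s w) j with hlt | hge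
      · exact val_eq_of_use h hlt (use_fu hl)
      · have heq : fu P I s w = j := le_antisymm hle hge
        exact absurd ⟨hl, hw, by rw [heq]; exact hAt⟩ hnd
    · have : ∃ i < j, At P I (s + i) w := by
        by_contra hcon
        push Not at hcon
        exact hl ⟨j, ⟨v, hw, hAt⟩, hcon⟩
      obtain ⟨i, hi, hiw⟩ := this
      exact (h.2 i hi w (Or.inl hiw)).2.2.2
  have hargs : G.args I v = G.args I' v := by
    by_cases hex : ∃ w ∈ G.pred v, DE P I s w v ∧ fu P I s w = j
    · obtain ⟨w, hw, hwD, hwj⟩ := hex
      -- `j` is the first time at which the right entry of `v` is read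
      have hfa : fa P I s v = j := by
        apply le_antisymm (fa_le hAt)
        have h1 := at_fa hAt
        have h2 : Use P I (s + fa P I s v) w := ⟨v, hw, h1⟩
        have := fu_le h2
        omega
      have hD' := (hD w v).1 hwD
      have hne' : At P I' (s' + fa P I' s' v) v := at_fa hD'.2.2
      have hj' : fa P I' s' v = j := by
        rcases Nat.lt_trichotomy (fa P I' s' v) j with hlt | heq | hgt
        · exfalso
          have h1 := (h.2 _ hlt v (Or.inr hne')).1
          have := fa_le h1
          omega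
        · exact heq
        · exfalso
          have hsub : AS P I s v ⊆ AS P I' s' v := by
            rintro α ⟨⟨i, hi, hα⟩, hcons⟩
            refine ⟨⟨i, by omega, ?_⟩, ?_⟩
            · rw [← h.1 i (by omega)]
              exact hα
            · intro w' hw'
              rw [← hD] at hw'
              rw [hcons w' hw', args_apply, args_apply]
              exact hknown w'.1 w'.2 hw'
          have hin : G.args I v ∈ AS P I' s' v := by
            refine ⟨⟨j, hgt, ?_⟩, ?_⟩
            · rw [← h.1 j le_rfl]
              exact hAt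
            · intro w' hw'
              rw [← hD] at hw'
              rw [args_apply, args_apply]
              exact hknown w'.1 w'.2 hw'
          have hnot : G.args I v ∉ AS P I s v := by
            rintro ⟨⟨i, hi, hα⟩, _⟩
            have := fa_le (P := P) (I := I) (s := s) (j := i) (u := v) hα
            omega
          have hss : AS P I s v ⊂ AS P I' s' v :=
            ⟨hsub, fun hcon => hnot (hcon hin)⟩
          have hlt := Set.ncard_lt_ncard hss (Set.toFinite _)
          have := hι v ⟨w, hwD⟩
          rw [← Nat.card_coe_set_eq, ← Nat.card_coe_set_eq, this] at hlt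
          exact lt_irrefl _ hlt
      rw [hj'] at hne'
      have h1 : P.act (P.state I (s + j)) = Sum.inr ⟨v, G.args I v⟩ := hAt
      have h2 : P.act (P.state I' (s' + j)) = Sum.inr ⟨v, G.args I' v⟩ := hne'
      rw [← h.1 j le_rfl, h1] at h2
      exact eq_of_heq (Sigma.mk.inj (Sum.inr.inj h2)).2
    · push Not at hex
      funext w
      rw [args_apply, args_apply]
      by_cases hwD : DE P I s w.1 v
      · have hle : fu P I s w.1 ≤ j := fu_le ⟨v, w.2, hAt⟩
        have hne := hex w.1 w.2 hwD
        exact val_eq_of_use h (lt_of_le_of_ne hle hne) (use_fu hwD.1)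
      · exact hknown w.1 w.2 hwD
  refine ⟨hargs, ?_⟩
  by_cases hl : IsLive P I s v
  · obtain ⟨j1, hu, hno⟩ := hl
    have hle : j1 ≤ j := by
      by_contra hcon
      exact hno j (by omega) hAt
    have hne : j1 ≠ j := by
      rintro rfl
      obtain ⟨x, hx, hxAt⟩ := hu
      have := hAt.unique hxAt
      subst this
      exact not_self_pred G _ hx
    exact val_eq_of_use h (lt_of_le_of_ne hle hne) hu
  · have h1 := hJ ⟨v, G.args I v⟩ (fun hh => hl hh.1) (fun hh => hl hh.1)
    rw [Dag.val_eq, Dag.val_eq, ← hargs]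
    exact h1

lemma agree_all [Finite V] {I I' : G.Tables k} {s s' : ℕ}
    (hq : P.state I s = P.state I' s')
    (hD : ∀ u x, DE P I s u x ↔ DE P I' s' u x)
    (hι : ∀ x, (∃ u, DE P I s u x) → Nat.card (AS P I s x) = Nat.card (AS P I' s' x))
    (hL : ∀ u, IsLive P I s u ↔ IsLive P I' s' u)
    (hJ : ∀ e : G.Entry k, ¬ (IsLive P I s e.1 ∧ e.2 = G.args I e.1) →
      ¬ (IsLive P I s e.1 ∧ e.2 = G.args I' e.1) → I e = I' e) :
    ∀ j, Agree P I I' s s' j := by
  have hJ' : ∀ e : G.Entry k, ¬ (IsLive P I' s' e.1 ∧ e.2 = G.args I' e.1) →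
      ¬ (IsLive P I' s' e.1 ∧ e.2 = G.args I e.1) → I' e = I e := by
    intro e h1 h2
    rw [← hL] at h1 h2
    exact (hJ e h2 h1).symm
  have hι' : ∀ x, (∃ u, DE P I' s' u x) → Nat.card (AS P I' s' x) = Nat.card (AS P I s x) := by
    rintro x ⟨u, hu⟩
    exact (hι x ⟨u, (hD u x).2 hu⟩).symm
  intro j
  induction j with
  | zero =>
    refine ⟨fun i hi => ?_, fun i hi => absurd hi (Nat.not_lt_zero _)⟩
    have : i = 0 := by omega
    subst this
    exact hq
  | succ j ih =>
    have hs := ih.1 j le_rfl
    -- the right entries read at step `j`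
    have hside : ∀ v, (At P I (s + j) v ∨ At P I' (s' + j) v) →
        At P I (s + j) v ∧ At P I' (s' + j) v ∧ G.args I v = G.args I' v ∧
          G.val I v = G.val I' v := by
      intro v hv
      rcases hv with hv | hv
      · obtain ⟨h1, h2⟩ := side ih hD hι hJ hv
        refine ⟨hv, ?_, h1, h2⟩
        unfold At at hv ⊢
        rw [← hs, hv, h1]
      · obtain ⟨h1, h2⟩ := side ih.symm (fun u x => (hD u x).symm) hι' hJ' hv
        refine ⟨?_, hv, h1.symm, h2.symm⟩
        unfold At at hv ⊢
        rw [hs, hv, h1]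
    have hnext : P.state I (s + (j + 1)) = P.state I' (s' + (j + 1)) := by
      rw [← add_assoc, ← add_assoc, Program.state_succ, Program.state_succ, ← hs]
      unfold Program.step
      cases hact : P.act (P.state I (s + j)) with
      | inl a => rfl
      | inr e =>
        simp only
        have hact' : P.act (P.state I' (s' + j)) = Sum.inr e := by rw [← hs, hact]
        suffices hIe : I e = I' e by rw [hIe]
        obtain ⟨v, α⟩ := e
        by_cases h1 : α = G.args I v
        · subst h1
          obtain ⟨_, _, h3, h4⟩ := hside v (Or.inl hact)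
          rw [← Dag.val_eq I v, h4, Dag.val_eq, h3]
        · by_cases h2 : α = G.args I' v
          · subst h2
            obtain ⟨_, _, h3, _⟩ := hside v (Or.inr hact')
            exact absurd h3.symm h1
          · exact hJ _ (fun hh => h1 hh.2) (fun hh => h2 hh.2)
    refine ⟨fun i hi => ?_, fun i hi => ?_⟩
    · rcases Nat.lt_or_ge i (j + 1) with h | h
      · exact ih.1 i (by omega)
      · have : i = j + 1 := by omega
        subst this
        exact hnext
    · rcases Nat.lt_or_ge i j with h | h
      · exact ih.2 i h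
      · have : i = j := by omega
        subst this
        exact hside

lemma ovr_of {L : V → Prop} {I : G.Tables k} {c : V → Fin k} {e : G.Entry k}
    (h : L e.1 ∧ e.2 = G.args I e.1) : ovr L I c e = c e.1 := by
  classical
  unfold ovr
  exact if_pos h

lemma ovr_not {L : V → Prop} {I : G.Tables k} {c : V → Fin k} {e : G.Entry k}
    (h : ¬ (L e.1 ∧ e.2 = G.args I e.1)) : ovr L I c e = I e := by
  classical
  unfold ovr
  exact if_neg h

/-- **Decoding.** -/
lemma decode [Finite V] {I I' : G.Tables k} {s s' : ℕ}
    (hq : P.state I s = P.state I' s')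
    (hD : ∀ u x, DE P I s u x ↔ DE P I' s' u x)
    (hι : ∀ x, (∃ u, DE P I s u x) → Nat.card (AS P I s x) = Nat.card (AS P I' s' x))
    (c c' : V → Fin k) (heq : ovr (IsLive P I s) I c = ovr (IsLive P I' s') I' c') :
    I = I' ∧ ∀ u, IsLive P I s u → c u = c' u := by
  have hL : ∀ u, IsLive P I s u ↔ IsLive P I' s' u := by
    intro u
    constructor
    · intro hu
      obtain ⟨x, hx⟩ := exists_de hu
      exact ((hD u x).1 hx).1
    · intro hu
      obtain ⟨x, hx⟩ := exists_de hu
      exact ((hD u x).2 hx).1
  have hJ : ∀ e : G.Entry k, ¬ (IsLive P I s e.1 ∧ e.2 = G.args I e.1) →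
      ¬ (IsLive P I s e.1 ∧ e.2 = G.args I' e.1) → I e = I' e := by
    intro e h1 h2
    rw [hL] at h2
    rw [← ovr_not (c := c) h1, heq, ovr_not h2]
  have hA := agree_all hq hD hι hL hJ
  have hlive : ∀ u, IsLive P I s u → G.val I u = G.val I' u := by
    intro u hu
    obtain ⟨j, hj, _⟩ := hu
    exact val_eq_of_use (hA (j + 1)) (Nat.lt_succ_self j) hj
  have hval : ∀ n, ∀ x, G.rank x < n → G.val I x = G.val I' x := by
    intro n
    induction n with
    | zero => intro x hx; omega
    | succ n ih =>
      intro x hx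
      by_cases hl : IsLive P I s x
      · exact hlive x hl
      · have hargs : G.args I x = G.args I' x := by
          funext w
          have := G.lt x w.1 w.2
          exact ih w.1 (by omega)
        rw [Dag.val_eq, Dag.val_eq, ← hargs]
        exact hJ _ (fun hh => hl hh.1) (fun hh => hl hh.1)
  have hval' : ∀ x, G.val I x = G.val I' x := fun x => hval _ x (Nat.lt_succ_self _)
  have hargs : ∀ x, G.args I x = G.args I' x := fun x => funext fun w => hval' w.1
  have hII : I = I' := by
    funext e
    obtain ⟨x, α⟩ := e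
    by_cases h1 : α = G.args I x
    · subst h1
      rw [← Dag.val_eq I x, hargs x, ← Dag.val_eq I' x]
      exact hval' x
    · exact hJ _ (fun hh => h1 hh.2) (fun hh => h1 (hh.2.trans (hargs x).symm))
  refine ⟨hII, fun u hu => ?_⟩
  have h1 : ovr (IsLive P I s) I c ⟨u, G.args I u⟩ = c u := ovr_of ⟨hu, rfl⟩
  have h2 : ovr (IsLive P I' s') I' c' ⟨u, G.args I u⟩ = c' u :=
    ovr_of ⟨(hL u).1 hu, hargs u⟩
  rw [← h1, heq, h2]

end enc

end Pool.Agent.W988.SR
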