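import Pool.Agent.W988.SR.Count

/-! The main inequality. -/

set_option autoImplicit false

namespace Pool.Agent.W988.SR

open Finset

/-! ### a binomial sum -/

lemma choose_le_choose_mul (e r p : ℕ) (hp : p ≤ r) :
    e.choose r ≤ e.choose p * (e - p).choose (r - p) := by
  rcases Nat.lt_or_ge e r with h | h
  · rw [Nat.choose_eq_zero_of_lt h]
    exact Nat.zero_le _
  · rw [← Nat.choose_mul hp]
    exact Nat.le_mul_of_pos_right _ (Nat.choose_pos hp)

lemma sum_choose_le (e p : ℕ) (x : ℝ) (hx : 0 ≤ x) :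
    ∑ r ∈ range (e + 1), (e.choose r : ℝ) * (if p ≤ r then x ^ r else 0) ≤
      e.choose p * x ^ p * (1 + x) ^ (e - p) := by
  rcases Nat.lt_or_ge e p with h | h
  · rw [Nat.choose_eq_zero_of_lt h]
    have : ∑ r ∈ range (e + 1), (e.choose r : ℝ) * (if p ≤ r then x ^ r else 0) = 0 := by
      apply Finset.sum_eq_zero
      intro r hr
      rw [mem_range] at hr
      rw [if_neg (by omega), mul_zero]
    rw [this]
    simp
  · have h1 : ∑ r ∈ range (e + 1), (e.choose r : ℝ) * (if p ≤ r then x ^ r else 0) =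
        ∑ r ∈ (range (e + 1)).filter (fun r => p ≤ r), (e.choose r : ℝ) * x ^ r := by
      rw [Finset.sum_filter]
      refine Finset.sum_congr rfl fun r _ => ?_
      split_ifs
      · rfl
      · rw [mul_zero]
    have h2 : ∑ r ∈ (range (e + 1)).filter (fun r => p ≤ r), (e.choose r : ℝ) * x ^ r ≤
        ∑ r ∈ (range (e + 1)).filter (fun r => p ≤ r),
          ((e.choose p : ℝ) * x ^ p) * ((e - p).choose (r - p) * x ^ (r - p)) := by
      refine Finset.sum_le_sum fun r hr => ?_
      rw [mem_filter] at hr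
      have h3 : (e.choose r : ℝ) ≤ e.choose p * (e - p).choose (r - p) := by
        exact_mod_cast choose_le_choose_mul e r p hr.2
      have h4 : x ^ r = x ^ p * x ^ (r - p) := by
        rw [← pow_add]
        congr 1
        omega
      calc (e.choose r : ℝ) * x ^ r ≤ (e.choose p * (e - p).choose (r - p)) * x ^ r :=
            mul_le_mul_of_nonneg_right h3 (pow_nonneg hx _)
        _ = _ := by rw [h4]; ring
    have h5 : ∑ r ∈ (range (e + 1)).filter (fun r => p ≤ r),
        ((e.choose p : ℝ) * x ^ p) * ((e - p).choose (r - p) * x ^ (r - p)) =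
        (e.choose p : ℝ) * x ^ p * (1 + x) ^ (e - p) := by
      rw [← Finset.mul_sum]
      congr 1
      rw [add_comm 1 x, add_pow]
      refine Finset.sum_bij' (fun r _ => r - p) (fun r _ => r + p) ?_ ?_ ?_ ?_ ?_
      · intro r hr
        rw [mem_filter, mem_range] at hr
        rw [mem_range]
        omega
      · intro r hr
        rw [mem_range] at hr
        rw [mem_filter, mem_range]
        omega
      · intro r hr
        rw [mem_filter] at hr
        omega
      · intro r hr
        omega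
      · intro r hr
        rw [one_pow, mul_one]
        ring
    rw [h1]
    exact h2.trans (le_of_eq h5)

lemma one_add_inv_pow_le (e p ρ : ℕ) (hρ : 0 < ρ) (he : e ≤ ρ) :
    (1 + (1 : ℝ) / ρ) ^ (e - p) ≤ 3 := by
  have h1 : (1 : ℝ) + 1 / ρ ≤ Real.exp (1 / ρ) := by
    have := Real.add_one_le_exp ((1 : ℝ) / ρ)
    linarith
  have hpos : (0 : ℝ) < ρ := by exact_mod_cast hρ
  calc (1 + (1 : ℝ) / ρ) ^ (e - p) ≤ (Real.exp (1 / ρ)) ^ (e - p) :=
        pow_le_pow_left₀ (by positivity) h1 _
    _ = Real.exp ((e - p : ℕ) * (1 / ρ)) := (Real.exp_nat_mul _ _).symm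
    _ ≤ Real.exp 1 := by
        apply Real.exp_le_exp.2
        rw [mul_one_div, div_le_one hpos]
        have : (e - p : ℕ) ≤ ρ := by omega
        exact_mod_cast this
    _ ≤ 3 := by
        have := Real.exp_one_lt_d9
        linarith

/-! ### the main inequality -/

section fin

variable {V Q O : Type} [Fintype V] {G : Dag V} {k : ℕ} {P : Program (G.Entry k) k Q O} {ρ : ℕ}

open Classical in
/-- all edges -/
noncomputable def EF (G : Dag V) : Finset (V × V) := univ.filter (fun z => z.1 ∈ G.pred z.2)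

lemma card_EF : (EF G).card = G.edges := by
  classical
  rw [← card_DF_eq_sum]
  unfold Dag.edges
  refine Finset.sum_congr rfl fun x _ => ?_
  congr 1
  ext u
  rw [mem_UD]
  unfold EF
  simp

lemma card_good_le [Fintype Q] (hk : 0 < k) (hρ : 0 < ρ) (he : G.edges ≤ ρ) {t : V} {p : ℕ}
    (hp : 2 ≤ p) (hneed : G.NeedsPebbles t p) :
    (Nat.card (Good P ρ t) : ℝ) ≤
      3 * Fintype.card Q * G.edges.choose p / ρ ^ p * Nat.card (G.Tables k) := by
  classical
  have hkR : (0 : ℝ) < k := by exact_mod_cast hk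
  have hρR : (0 : ℝ) < ρ := by exact_mod_cast hρ
  set T : ℝ := (Nat.card (G.Tables k) : ℝ) with hT
  have hT0 : 0 ≤ T := Nat.cast_nonneg _
  let 𝒟 : Finset (Finset (V × V)) := (EF G).powerset.filter (fun D => p ≤ D.card)
  let Bx : Finset (V × V) → Finset (V → ℕ) := fun D =>
    Fintype.piFinset (fun x => range (k ^ (UD D x).card / ρ ^ (UD D x).card))
  let cls : Q → Finset (V × V) → (V → ℕ) → Finset (G.Tables k) := fun q D i =>
    univ.filter (fun I => I ∈ Cls P ρ t p q D i)
  have hsub : (univ.filter (fun I => I ∈ Good P ρ t)) ⊆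
      univ.biUnion (fun q => 𝒟.biUnion (fun D => (Bx D).biUnion (fun i => cls q D i))) := by
    intro I hI
    rw [mem_filter] at hI
    have hI := hI.2
    rw [mem_biUnion]
    refine ⟨P.state I (tm P p I), mem_univ _, ?_⟩
    rw [mem_biUnion]
    refine ⟨DF P I (tm P p I), ?_, ?_⟩
    · rw [mem_filter, mem_powerset]
      refine ⟨?_, tm_spec hp hneed hI⟩
      intro z hz
      rw [mem_DF] at hz
      unfold EF
      rw [mem_filter]
      exact ⟨mem_univ _, hz.2.1⟩
    · rw [mem_biUnion]
      refine ⟨io P I (tm P p I), ?_, ?_⟩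
      · rw [Fintype.mem_piFinset]
        intro x
        rw [mem_range, Nat.lt_iff_add_one_le, Nat.le_div_iff_mul_le (pow_pos hρ _)]
        exact io_bound hI _ x
      · rw [mem_filter]
        exact ⟨mem_univ _, hI, rfl, rfl, rfl⟩
  have h1 : (Nat.card (Good P ρ t) : ℝ) ≤
      ∑ q : Q, ∑ D ∈ 𝒟, ∑ i ∈ Bx D, ((cls q D i).card : ℝ) := by
    have h2 : Nat.card (Good P ρ t) = (univ.filter (fun I => I ∈ Good P ρ t)).card := by
      rw [Nat.card_eq_fintype_card, Fintype.card_subtype]
    rw [h2]
    have h3 : (univ.filter (fun I => I ∈ Good P ρ t)).card ≤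
        ∑ q : Q, ∑ D ∈ 𝒟, ∑ i ∈ Bx D, (cls q D i).card := by
      refine (Finset.card_le_card hsub).trans ?_
      refine Finset.card_biUnion_le.trans (Finset.sum_le_sum fun q _ => ?_)
      refine Finset.card_biUnion_le.trans (Finset.sum_le_sum fun D _ => ?_)
      exact Finset.card_biUnion_le
    exact_mod_cast h3
  have h4 : ∀ q D i, ((cls q D i).card : ℝ) ≤ T / k ^ D.card := by
    intro q D i
    rw [le_div_iff₀ (pow_pos hkR _)]
    have h5 := card_cls (P := P) (ρ := ρ) t p q D i
    have h6 : Nat.card (Cls P ρ t p q D i) = (cls q D i).card := by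
      rw [Nat.card_eq_fintype_card, Fintype.card_subtype]
    rw [h6] at h5
    rw [hT]
    exact_mod_cast h5
  have h7 : ∀ D, ((Bx D).card : ℝ) ≤ ((k : ℝ) / ρ) ^ D.card := by
    intro D
    rw [Fintype.card_piFinset]
    push_cast
    rw [← card_DF_eq_sum D, ← Finset.prod_pow_eq_pow_sum]
    refine Finset.prod_le_prod (fun x _ => Nat.cast_nonneg _) fun x _ => ?_
    rw [card_range, div_pow]
    refine Nat.cast_div_le.trans ?_
    push_cast
    exact le_rfl
  have h8 : ∀ q D, ∑ i ∈ Bx D, ((cls q D i).card : ℝ) ≤ T * (1 / ρ) ^ D.card := by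
    intro q D
    calc ∑ i ∈ Bx D, ((cls q D i).card : ℝ) ≤ ∑ _i ∈ Bx D, T / k ^ D.card :=
          Finset.sum_le_sum fun i _ => h4 q D i
      _ = (Bx D).card * (T / k ^ D.card) := by rw [Finset.sum_const, nsmul_eq_mul]
      _ ≤ ((k : ℝ) / ρ) ^ D.card * (T / k ^ D.card) :=
          mul_le_mul_of_nonneg_right (h7 D) (by positivity)
      _ = T * (1 / ρ) ^ D.card := by
          rw [div_pow, div_pow, one_pow]
          field_simp
  have h9 : ∑ D ∈ 𝒟, T * (1 / (ρ : ℝ)) ^ D.card ≤ T * (3 * G.edges.choose p / ρ ^ p) := by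
    rw [← Finset.mul_sum]
    refine mul_le_mul_of_nonneg_left ?_ hT0
    rw [Finset.sum_filter]
    have h10 := Finset.sum_powerset_apply_card
      (fun r => if p ≤ r then (1 / (ρ : ℝ)) ^ r else 0) (x := EF G)
    rw [h10, card_EF]
    have h11 := sum_choose_le G.edges p (1 / (ρ : ℝ)) (by positivity)
    have h12 := one_add_inv_pow_le G.edges p ρ hρ he
    calc ∑ m ∈ range (G.edges + 1),
          G.edges.choose m • (if p ≤ m then (1 / (ρ : ℝ)) ^ m else 0)
        = ∑ m ∈ range (G.edges + 1),
          (G.edges.choose m : ℝ) * (if p ≤ m then (1 / (ρ : ℝ)) ^ m else 0) := by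
          refine Finset.sum_congr rfl fun m _ => ?_
          rw [nsmul_eq_mul]
      _ ≤ _ := h11
      _ ≤ G.edges.choose p * (1 / (ρ : ℝ)) ^ p * 3 :=
          mul_le_mul_of_nonneg_left h12 (by positivity)
      _ = _ := by
          rw [div_pow, one_pow]
          ring
  calc (Nat.card (Good P ρ t) : ℝ) ≤ ∑ q : Q, ∑ D ∈ 𝒟, ∑ i ∈ Bx D, ((cls q D i).card : ℝ) := h1
    _ ≤ ∑ _q : Q, ∑ D ∈ 𝒟, T * (1 / (ρ : ℝ)) ^ D.card :=
        Finset.sum_le_sum fun q _ => Finset.sum_le_sum fun D _ => h8 q D
    _ ≤ ∑ _q : Q, T * (3 * G.edges.choose p / ρ ^ p) := Finset.sum_le_sum fun q _ => h9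
    _ = _ := by
        rw [Finset.sum_const, Finset.card_univ, nsmul_eq_mul]
        ring

lemma main' [Finite Q] (φ : Fin k → O) (m : ℕ)
    (hm : ∀ o, Nat.card {c : Fin k // φ c = o} ≤ m) (hk : 0 < k) (hρ : 0 < ρ) (he : G.edges ≤ ρ)
    {t : V} {p : ℕ} (hp : 2 ≤ p) (hneed : G.NeedsPebbles t p) :
    (Nat.card {I : G.Tables k // P.Outputs I (φ (G.val I t)) ∧ ReadsSparsely G P ρ I} : ℝ) ≤
      (m / k + G.edges / ρ + 3 * Nat.card Q * G.edges.choose p / ρ ^ p) *
        Nat.card (G.Tables k) := by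
  classical
  have : Fintype Q := Fintype.ofFinite Q
  have hkR : (0 : ℝ) < k := by exact_mod_cast hk
  have hρR : (0 : ℝ) < ρ := by exact_mod_cast hρ
  set T : ℝ := (Nat.card (G.Tables k) : ℝ) with hT
  have hT0 : 0 ≤ T := Nat.cast_nonneg _
  have hsub : (univ.filter fun I : G.Tables k => P.Outputs I (φ (G.val I t)) ∧
      ReadsSparsely G P ρ I) ⊆ (univ.filter fun I => I ∈ NoSink P φ t) ∪
      (((EF G).filter fun z => Tight G z.1 z.2).biUnion
        fun z => univ.filter fun I => I ∈ BadE P ρ z.1 z.2) ∪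
      (univ.filter fun I => I ∈ Good P ρ t) := by
    intro I hI
    rw [mem_filter] at hI
    obtain ⟨_, ho, hs⟩ := hI
    rw [mem_union, mem_union, mem_filter, mem_filter, mem_biUnion]
    by_cases h1 : I ∈ NoSink P φ t
    · exact Or.inl (Or.inl ⟨mem_univ _, h1⟩)
    by_cases h2 : ∃ z ∈ (EF G).filter fun z => Tight G z.1 z.2, I ∈ BadE P ρ z.1 z.2
    · obtain ⟨z, hz, hz2⟩ := h2
      exact Or.inl (Or.inr ⟨z, hz, by rw [mem_filter]; exact ⟨mem_univ _, hz2⟩⟩)
    · right
      refine ⟨mem_univ _, hs, ?_, ?_⟩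
      · by_contra hcon
        push Not at hcon
        exact h1 ⟨ho, hcon⟩
      · have hord := order_all (P := P) I (by
          intro u v huv htight j hj
          by_contra hcon
          push Not at hcon
          refine h2 ⟨(u, v), ?_, hs, j, hj, hcon⟩
          unfold EF
          rw [mem_filter, mem_filter]
          exact ⟨⟨mem_univ _, huv⟩, htight⟩)
        intro j v hj u hu
        exact hord (G.rank v) u v hu (by omega) j hj
  have h1 : ((univ.filter fun I => I ∈ NoSink P φ t).card : ℝ) ≤ m / k * T := by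
    have h := noSink_card (P := P) φ m hm t
    have h2 : Nat.card (NoSink P φ t) = (univ.filter fun I => I ∈ NoSink P φ t).card := by
      rw [Nat.card_eq_fintype_card, Fintype.card_subtype]
    rw [h2] at h
    rw [div_mul_eq_mul_div, le_div_iff₀ hkR, hT, mul_comm (m : ℝ)]
    exact_mod_cast h
  have h2 : ∀ z ∈ (EF G).filter fun z => Tight G z.1 z.2,
      ((univ.filter fun I => I ∈ BadE P ρ z.1 z.2).card : ℝ) ≤ T / ρ := by
    intro z hz
    rw [mem_filter] at hz
    have hz' : z.1 ∈ G.pred z.2 := by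
      have hz1 := hz.1
      unfold EF at hz1
      rw [mem_filter] at hz1
      exact hz1.2
    have h := badE_card (P := P) (ρ := ρ) hk hz.2 hz'
    have h2 : Nat.card (BadE P ρ z.1 z.2) =
        (univ.filter fun I => I ∈ BadE P ρ z.1 z.2).card := by
      rw [Nat.card_eq_fintype_card, Fintype.card_subtype]
    rw [h2] at h
    rw [le_div_iff₀ hρR, hT]
    exact_mod_cast h
  have h3 : ((((EF G).filter fun z => Tight G z.1 z.2).biUnion
      fun z => univ.filter fun I => I ∈ BadE P ρ z.1 z.2).card : ℝ) ≤ G.edges / ρ * T := by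
    have h4 : (((EF G).filter fun z => Tight G z.1 z.2).biUnion
        fun z => univ.filter fun I => I ∈ BadE P ρ z.1 z.2).card ≤
        ∑ z ∈ (EF G).filter fun z => Tight G z.1 z.2,
          (univ.filter fun I => I ∈ BadE P ρ z.1 z.2).card := Finset.card_biUnion_le
    have h5 : (((EF G).filter fun z => Tight G z.1 z.2).card : ℝ) ≤ G.edges := by
      rw [← card_EF]
      exact_mod_cast Finset.card_filter_le _ _
    calc ((((EF G).filter fun z => Tight G z.1 z.2).biUnion
          fun z => univ.filter fun I => I ∈ BadE P ρ z.1 z.2).card : ℝ) ≤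
          ∑ z ∈ (EF G).filter fun z => Tight G z.1 z.2,
            ((univ.filter fun I => I ∈ BadE P ρ z.1 z.2).card : ℝ) := by
          exact_mod_cast h4
      _ ≤ ∑ _z ∈ (EF G).filter fun z => Tight G z.1 z.2, T / ρ := Finset.sum_le_sum h2
      _ = ((EF G).filter fun z => Tight G z.1 z.2).card * (T / ρ) := by
          rw [Finset.sum_const, nsmul_eq_mul]
      _ ≤ G.edges * (T / ρ) := mul_le_mul_of_nonneg_right h5 (by positivity)
      _ = _ := by ring
  have h4 : ((univ.filter fun I => I ∈ Good P ρ t).card : ℝ) ≤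
      3 * Nat.card Q * G.edges.choose p / ρ ^ p * T := by
    have h := card_good_le (P := P) hk hρ he hp hneed
    have h2 : Nat.card (Good P ρ t) = (univ.filter fun I => I ∈ Good P ρ t).card := by
      rw [Nat.card_eq_fintype_card, Fintype.card_subtype]
    rw [h2] at h
    rw [Nat.card_eq_fintype_card (α := Q)]
    exact h
  have h5 : Nat.card {I : G.Tables k // P.Outputs I (φ (G.val I t)) ∧ ReadsSparsely G P ρ I} =
      (univ.filter fun I : G.Tables k => P.Outputs I (φ (G.val I t)) ∧
        ReadsSparsely G P ρ I).card := by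
    rw [Nat.card_eq_fintype_card, Fintype.card_subtype]
  rw [h5]
  have h6 := (Finset.card_le_card hsub).trans
    ((Finset.card_union_le _ _).trans (Nat.add_le_add_right (Finset.card_union_le _ _) _))
  have h7 : ((univ.filter fun I : G.Tables k => P.Outputs I (φ (G.val I t)) ∧
      ReadsSparsely G P ρ I).card : ℝ) ≤ (univ.filter fun I => I ∈ NoSink P φ t).card +
      (((EF G).filter fun z => Tight G z.1 z.2).biUnion
        fun z => univ.filter fun I => I ∈ BadE P ρ z.1 z.2).card +
      (univ.filter fun I => I ∈ Good P ρ t).card := by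
    exact_mod_cast h6
  calc ((univ.filter fun I : G.Tables k => P.Outputs I (φ (G.val I t)) ∧
      ReadsSparsely G P ρ I).card : ℝ) ≤ _ := h7
    _ ≤ m / k * T + G.edges / ρ * T + 3 * Nat.card Q * G.edges.choose p / ρ ^ p * T :=
        add_le_add (add_le_add h1 h3) h4
    _ = _ := by ring

/-- **The main inequality.** -/
theorem main [Finite Q] (φ : Fin k → O) (m : ℕ)
    (hm : ∀ o, Nat.card {c : Fin k // φ c = o} ≤ m) (hρ : 0 < ρ)
    {t : V} {p : ℕ} (hp : 2 ≤ p) (hneed : G.NeedsPebbles t p) :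
    (Nat.card {I : G.Tables k // P.Outputs I (φ (G.val I t)) ∧ ReadsSparsely G P ρ I} : ℝ) ≤
      (m / k + G.edges / ρ + 3 * Nat.card Q * G.edges.choose p / ρ ^ p) *
        Nat.card (G.Tables k) := by
  classical
  have hle : (Nat.card {I : G.Tables k // P.Outputs I (φ (G.val I t)) ∧
      ReadsSparsely G P ρ I} : ℝ) ≤ Nat.card (G.Tables k) := by
    exact_mod_cast Nat.card_le_card_of_injective _ Subtype.val_injective
  rcases Nat.eq_zero_or_pos k with h0 | hk
  · subst h0
    have hemp : IsEmpty (G.Tables 0) := by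
      obtain ⟨v, hv⟩ := exists_source G t
      constructor
      intro I
      exact Fin.elim0 (I ⟨v, fun u => absurd u.2 (fun h => Finset.notMem_empty u.1 (hv ▸ h))⟩)
    rw [Nat.card_of_isEmpty (α := G.Tables 0)] at hle ⊢
    refine hle.trans ?_
    simp
  · rcases Nat.lt_or_ge ρ G.edges with hlt | he
    · refine hle.trans ?_
      have hρR : (0 : ℝ) < ρ := by exact_mod_cast hρ
      have h1 : (1 : ℝ) ≤ G.edges / ρ := by
        rw [le_div_iff₀ hρR, one_mul]
        exact_mod_cast hlt.le
      have h2 : (0 : ℝ) ≤ (m : ℝ) / k := by positivity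
      have h3 : (0 : ℝ) ≤ 3 * Nat.card Q * G.edges.choose p / ρ ^ p := by positivity
      have h4 : (1 : ℝ) ≤ m / k + G.edges / ρ + 3 * Nat.card Q * G.edges.choose p / ρ ^ p := by
        linarith
      calc (Nat.card (G.Tables k) : ℝ) = 1 * Nat.card (G.Tables k) := (one_mul _).symm
        _ ≤ _ := mul_le_mul_of_nonneg_right h4 (Nat.cast_nonneg _)
    · exact main' φ m hm hk hρ he hp hneed

end fin

end Pool.Agent.W988.SR
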