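import Pool.Agent.W988.SR.Defs

/-! Pyramids. -/

set_option autoImplicit false

namespace Pool.Agent.W988.SR

open Finset

/-- The nodes of the pyramid with `h` rows: pairs `(i, j)` with `i + j < h`; `i` is the row (from
bottom to top) and `j` the position in the row. -/
abbrev PNode (h : ℕ) : Type := {z : Fin h × Fin h // z.1.val + z.2.val < h}

/-- The pyramid with `h` rows: the predecessors of `(i + 1, j)` are `(i, j)` and `(i, j + 1)`, the
nodes `(0, j)` have no predecessors. -/
def pyramid (h : ℕ) : Dag (PNode h) where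
  pred v := univ.filter fun w =>
    w.1.1.val + 1 = v.1.1.val ∧ (w.1.2.val = v.1.2.val ∨ w.1.2.val = v.1.2.val + 1)
  rank v := v.1.1.val
  lt v u hu := by
    rw [mem_filter] at hu
    omega

/-- The top of the pyramid. -/
def apex (h : ℕ) (hh : 0 < h) : PNode h := ⟨(⟨h - 1, by omega⟩, ⟨0, hh⟩), by simp; omega⟩

lemma mem_pred {h : ℕ} {v w : PNode h} : w ∈ (pyramid h).pred v ↔
    w.1.1.val + 1 = v.1.1.val ∧ (w.1.2.val = v.1.2.val ∨ w.1.2.val = v.1.2.val + 1) := by
  unfold pyramid
  simp

/-- the positions of a path from the bottom to the top -/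
def IsPath (h : ℕ) (j : ℕ → ℕ) : Prop :=
  j (h - 1) = 0 ∧ ∀ i < h - 1, j i = j (i + 1) ∨ j i = j (i + 1) + 1

/-- the node `(i, j)` carries a pebble -/
def Has {h : ℕ} (C : Finset (PNode h)) (i j : ℕ) : Prop := ∃ w ∈ C, w.1.1.val = i ∧ w.1.2.val = j

lemma path_le {h : ℕ} {j : ℕ → ℕ} (hj : IsPath h j) : ∀ d i, i + d ≤ h - 1 →
    j (i + d) ≤ j i ∧ i + j i ≤ i + d + j (i + d) := by
  intro d
  induction d with
  | zero => intro i _; exact ⟨le_rfl, le_rfl⟩
  | succ d ih =>
    intro i hi
    have h1 := ih i (by omega)
    have h2 := hj.2 (i + d) (by omega)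
    rw [show i + d + 1 = i + (d + 1) by ring] at h2
    omega

lemma path_mono {h : ℕ} {j : ℕ → ℕ} (hj : IsPath h j) {a b : ℕ} (hab : a ≤ b) (hb : b ≤ h - 1) :
    j b ≤ j a ∧ a + j a ≤ b + j b := by
  have := path_le hj (b - a) a (by omega)
  rwa [Nat.add_sub_cancel' hab] at this

theorem pyramid_needs (h : ℕ) (hh : 0 < h) : (pyramid h).NeedsPebbles (apex h hh) h := by
  classical
  intro T C hC0 hCT hstep
  let Bl : ℕ → Prop := fun i => ∀ j, IsPath h j → ∃ m ≤ h - 1, Has (C i) m (j m)
  have hB0 : ¬ Bl 0 := by
    intro hB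
    obtain ⟨m, _, w, hw, _⟩ := hB (fun _ => 0) ⟨rfl, fun i _ => Or.inl rfl⟩
    rw [hC0] at hw
    exact Finset.notMem_empty _ hw
  have hBT : Bl T := fun j hj => ⟨h - 1, le_rfl, apex h hh, hCT, rfl, by rw [hj.1]; rfl⟩
  obtain ⟨i, hiT, hBi, hBi1⟩ : ∃ i < T, ¬ Bl i ∧ Bl (i + 1) := by
    by_contra hcon
    push Not at hcon
    have : ∀ i ≤ T, ¬ Bl i := by
      intro i
      induction i with
      | zero => intro _; exact hB0
      | succ i ih => intro hi; exact hcon i (by omega) (ih (by omega))
    exact this T le_rfl hBT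
  refine ⟨i + 1, hiT, ?_⟩
  obtain ⟨j, hj, hav⟩ : ∃ j, IsPath h j ∧ ∀ m ≤ h - 1, ¬ Has (C i) m (j m) := by
    by_contra hcon
    push Not at hcon
    exact hBi hcon
  obtain ⟨v, hpred, hsub⟩ := hstep i hiT
  -- the nodes of the path in `C (i + 1)`
  have honly : ∀ m ≤ h - 1, ∀ w ∈ C (i + 1), w.1.1.val = m → w.1.2.val = j m → w = v := by
    intro m hm w hw h1 h2
    rcases hsub w hw with h3 | h3
    · exact h3
    · exact absurd ⟨w, h3, h1, h2⟩ (hav m hm)
  obtain ⟨m0, hm0, w0, hw0, hw1, hw2⟩ := hBi1 j hj
  have hv0 : w0 = v := honly m0 hm0 w0 hw0 hw1 hw2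
  subst hv0
  have hm00 : m0 = 0 := by
    by_contra hne
    have h1 := hj.2 (m0 - 1) (by omega)
    rw [show m0 - 1 + 1 = m0 by omega] at h1
    have hb := path_mono hj (a := m0 - 1) (b := h - 1) (by omega) le_rfl
    rw [hj.1] at hb
    have hlt : m0 - 1 + j (m0 - 1) < h := by omega
    let u : PNode h := ⟨(⟨m0 - 1, by omega⟩, ⟨j (m0 - 1), by omega⟩), hlt⟩
    have hu : u ∈ (pyramid h).pred w0 := by
      rw [mem_pred]
      refine ⟨?_, ?_⟩
      · show m0 - 1 + 1 = w0.1.1.val
        omega
      · show j (m0 - 1) = w0.1.2.val ∨ j (m0 - 1) = w0.1.2.val + 1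
        omega
    exact hav (m0 - 1) (by omega) ⟨u, hpred hu, rfl, rfl⟩
  subst hm00
  have hoff : ∀ m, 1 ≤ m → m ≤ h - 1 → ¬ Has (C (i + 1)) m (j m) := by
    rintro m hm1 hm2 ⟨w, hw, h1, h2⟩
    have := honly m hm2 w hw h1 h2
    subst this
    omega
  -- the other nodes
  have hex : ∀ m, 1 ≤ m → m < h → ∃ w ∈ C (i + 1), w.1.1.val < m ∧
      ((j (m - 1) = j m ∧ w.1.1.val + w.1.2.val = j m + m) ∨
        (j (m - 1) = j m + 1 ∧ w.1.2.val = j m)) := by
    intro m hm1 hm2
    have hcase := hj.2 (m - 1) (by omega)
    rw [show m - 1 + 1 = m by omega] at hcase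
    rcases hcase with hc | hc
    · let q : ℕ → ℕ := fun a => if a < m then j m + m - a else j a
      have hq : IsPath h q := by
        refine ⟨?_, ?_⟩
        · simp only [q]
          rw [if_neg (by omega)]
          exact hj.1
        · intro a ha
          simp only [q]
          by_cases h1 : a + 1 < m
          · rw [if_pos (by omega), if_pos h1]
            omega
          · by_cases h2 : a < m
            · rw [if_pos h2, if_neg h1]
              have : a + 1 = m := by omega
              rw [this]
              omega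
            · rw [if_neg h2, if_neg (by omega)]
              exact hj.2 a ha
      obtain ⟨a, ha, w, hw, h1, h2⟩ := hBi1 q hq
      simp only [q] at h2
      by_cases h3 : a < m
      · rw [if_pos h3] at h2
        exact ⟨w, hw, by omega, Or.inl ⟨hc, by omega⟩⟩
      · rw [if_neg h3] at h2
        exact absurd ⟨w, hw, h1, h2⟩ (hoff a (by omega) ha)
    · let q : ℕ → ℕ := fun a => if a < m then j m else j a
      have hq : IsPath h q := by
        refine ⟨?_, ?_⟩
        · simp only [q]
          rw [if_neg (by omega)]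
          exact hj.1
        · intro a ha
          simp only [q]
          by_cases h1 : a + 1 < m
          · rw [if_pos (by omega), if_pos h1]
            omega
          · by_cases h2 : a < m
            · rw [if_pos h2, if_neg h1]
              have : a + 1 = m := by omega
              rw [this]
              omega
            · rw [if_neg h2, if_neg (by omega)]
              exact hj.2 a ha
      obtain ⟨a, ha, w, hw, h1, h2⟩ := hBi1 q hq
      simp only [q] at h2
      by_cases h3 : a < m
      · rw [if_pos h3] at h2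
        exact ⟨w, hw, by omega, Or.inr ⟨hc, by omega⟩⟩
      · rw [if_neg h3] at h2
        exact absurd ⟨w, hw, h1, h2⟩ (hoff a (by omega) ha)
  have : Nonempty (PNode h) := ⟨w0⟩
  choose! c hc1 hc2 hc3 using hex
  have hpair : ∀ m m', 1 ≤ m → m < m' → m' < h → c m ≠ c m' := by
    intro m m' hm hmm hm' heq
    have h1 := hc2 m hm (by omega)
    have h2 := hc3 m hm (by omega)
    have h3 := hc3 m' (by omega) hm'
    rw [← heq] at h3
    have h4 := path_mono hj (a := m) (b := m' - 1) (by omega) (by omega)
    omega
  have hzero : ∀ m, 1 ≤ m → m < h → c m ≠ w0 := by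
    intro m hm hm2 heq
    have h2 := hc3 m hm hm2
    rw [heq] at h2
    have h4 := path_mono hj (a := 0) (b := m - 1) (by omega) (by omega)
    omega
  have hinj : Function.Injective (fun m : Fin h =>
      (⟨if m.val = 0 then w0 else c m.val, by
        split_ifs with h0
        · exact hw0
        · exact hc1 m.val (by omega) m.2⟩ : {w // w ∈ C (i + 1)})) := by
    intro m m' heq
    have heq' := congrArg Subtype.val heq
    simp only at heq'
    apply Fin.ext
    by_contra hne
    by_cases h0 : m.val = 0
    · rw [if_pos h0, if_neg (by omega)] at heq'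
      exact hzero m'.val (by omega) m'.2 heq'.symm
    · by_cases h0' : m'.val = 0
      · rw [if_neg h0, if_pos h0'] at heq'
        exact hzero m.val (by omega) m.2 heq'
      · rw [if_neg h0, if_neg h0'] at heq'
        rcases Nat.lt_or_ge m.val m'.val with hlt | hge
        · exact hpair _ _ (by omega) hlt m'.2 heq'
        · exact hpair _ _ (by omega) (by omega) m.2 heq'.symm
  have := Fintype.card_le_of_injective _ hinj
  rwa [Fintype.card_fin, Fintype.card_coe] at this

lemma pred_card (h : ℕ) (v : PNode h) :
    ((pyramid h).pred v).card ≤ if 0 < v.1.1.val then 2 else 0 := by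
  classical
  split_ifs with h0
  · have : ((pyramid h).pred v).card ≤ (range 2).card := by
      refine Finset.card_le_card_of_injOn (fun w => w.1.2.val - v.1.2.val) ?_ ?_
      · intro w hw
        rw [mem_coe, mem_pred] at hw
        rw [mem_coe, mem_range]
        show w.1.2.val - v.1.2.val < 2
        omega
      · intro w hw w' hw' heq
        rw [mem_coe, mem_pred] at hw hw'
        simp only at heq
        apply Subtype.ext
        apply Prod.ext
        · apply Fin.ext
          omega
        · apply Fin.ext
          omega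
    rwa [card_range] at this
  · rw [Nat.le_zero, Finset.card_eq_zero]
    apply Finset.eq_empty_of_forall_notMem
    intro w hw
    rw [mem_pred] at hw
    omega

lemma pyramid_edges (h : ℕ) : (pyramid h).edges ≤ h * h := by
  classical
  have h1 : (pyramid h).edges ≤ ∑ v : PNode h, if 0 < v.1.1.val then 2 else 0 :=
    Finset.sum_le_sum fun v _ => pred_card h v
  refine h1.trans ?_
  rw [← Finset.sum_filter, Finset.sum_const, smul_eq_mul]
  let S : Finset (PNode h) := univ.filter (fun v => 0 < v.1.1.val)
  let f1 : PNode h → Fin h × Fin h := fun v => v.1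
  let f2 : PNode h → Fin h × Fin h := fun v =>
    (⟨h - 1 - (v.1.1.val - 1), by have := v.1.1.2; omega⟩,
      ⟨h - 1 - v.1.2.val, by have := v.1.1.2; omega⟩)
  have hi1 : (S.image f1).card = S.card :=
    Finset.card_image_of_injective _ Subtype.val_injective
  have hi2 : (S.image f2).card = S.card := by
    apply Finset.card_image_of_injOn
    intro v hv w hw heq
    rw [mem_coe, mem_filter] at hv hw
    have e1 := congrArg (fun z => z.1.val) heq
    have e2 := congrArg (fun z => z.2.val) heq
    simp only [f2] at e1 e2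
    have a1 := v.1.1.2
    have a2 := w.1.1.2
    have a3 := v.1.2.2
    have a4 := w.1.2.2
    apply Subtype.ext
    apply Prod.ext
    · apply Fin.ext
      omega
    · apply Fin.ext
      omega
  have hd : Disjoint (S.image f1) (S.image f2) := by
    rw [Finset.disjoint_left]
    intro z hz1 hz2
    rw [mem_image] at hz1 hz2
    obtain ⟨v, hv, rfl⟩ := hz1
    obtain ⟨w, hw, heq⟩ := hz2
    rw [mem_filter] at hv hw
    have e1 := congrArg (fun z => z.1.val) heq
    have e2 := congrArg (fun z => z.2.val) heq
    simp only [f1, f2] at e1 e2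
    have a1 := v.2
    have a2 := w.2
    have a3 := w.1.1.2
    omega
  have hc := Finset.card_le_card (Finset.subset_univ (S.image f1 ∪ S.image f2))
  rw [Finset.card_union_of_disjoint hd, hi1, hi2, Finset.card_univ, Fintype.card_prod,
    Fintype.card_fin] at hc
  have : (univ.filter (fun v : PNode h => 0 < v.1.1.val)).card = S.card := rfl
  rw [this]
  omega

end Pool.Agent.W988.SR
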