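import Pool.Agent.W988.SR.Final
import Pool.Agent.W988.SR.Pyramid

/-! The inequality for pyramids. -/

set_option autoImplicit false

namespace Pool.Agent.W988.SR

open Finset

lemma pow_self_le (r : ℕ) : (r : ℝ) ^ r ≤ 3 ^ r * r.factorial := by
  induction r with
  | zero => simp
  | succ r ih =>
    rcases Nat.eq_zero_or_pos r with h0 | h0
    · subst h0
      norm_num
    have hr : (0 : ℝ) < r := by exact_mod_cast h0
    have h1 : ((r : ℝ) + 1) ^ r ≤ 3 * (r : ℝ) ^ r := by
      have h2 : ((r : ℝ) + 1) = r * (1 + 1 / r) := by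
        field_simp
      rw [h2, mul_pow, mul_comm]
      refine mul_le_mul_of_nonneg_right ?_ (by positivity)
      have h3 := one_add_inv_pow_le r 0 r h0 le_rfl
      simpa using h3
    push_cast [Nat.factorial_succ]
    calc ((r : ℝ) + 1) ^ (r + 1) = ((r : ℝ) + 1) * ((r : ℝ) + 1) ^ r := by ring
      _ ≤ ((r : ℝ) + 1) * (3 * (r : ℝ) ^ r) := mul_le_mul_of_nonneg_left h1 (by positivity)
      _ ≤ ((r : ℝ) + 1) * (3 * (3 ^ r * r.factorial)) := by
          refine mul_le_mul_of_nonneg_left ?_ (by positivity)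
          linarith
      _ = 3 ^ (r + 1) * (((r : ℝ) + 1) * r.factorial) := by ring

lemma choose_sq_le (h : ℕ) (hh : 0 < h) : ((h * h).choose h : ℝ) ≤ (3 * h) ^ h := by
  have h1 : ((h * h).choose h : ℝ) ≤ ((h * h : ℕ) : ℝ) ^ h / h.factorial :=
    Nat.choose_le_pow_div h (h * h)
  have h2 := pow_self_le h
  have h3 : (0 : ℝ) < h := by exact_mod_cast hh
  have h4 : (0 : ℝ) < h.factorial := by exact_mod_cast Nat.factorial_pos h
  refine h1.trans ?_
  rw [div_le_iff₀ h4]
  push_cast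
  calc ((h : ℝ) * h) ^ h = (h : ℝ) ^ h * (h : ℝ) ^ h := mul_pow _ _ _
    _ ≤ (h : ℝ) ^ h * (3 ^ h * h.factorial) := mul_le_mul_of_nonneg_left h2 (by positivity)
    _ = (3 * h) ^ h * h.factorial := by rw [mul_pow]; ring

theorem pyramid_main {Q O : Type} [Finite Q] (h k ρ : ℕ) (hh : 2 ≤ h) (hρ : 0 < ρ)
    (φ : Fin k → O) (m : ℕ) (hm : ∀ o, Nat.card {c : Fin k // φ c = o} ≤ m)
    (P : Program ((pyramid h).Entry k) k Q O) :
    (Nat.card {I : (pyramid h).Tables k //
      P.Outputs I (φ ((pyramid h).val I (apex h (by omega)))) ∧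
        ReadsSparsely (pyramid h) P ρ I} : ℝ) ≤
      (m / k + h ^ 2 / ρ + 3 * Nat.card Q * (3 * h / ρ) ^ h) *
        Nat.card ((pyramid h).Tables k) := by
  have he := pyramid_edges h
  rw [← sq] at he
  have hρR : (0 : ℝ) < ρ := by exact_mod_cast hρ
  have h1 := main (P := P) (ρ := ρ) φ m hm hρ hh (pyramid_needs h (by omega))
  refine h1.trans (mul_le_mul_of_nonneg_right ?_ (Nat.cast_nonneg _))
  have h2 : ((pyramid h).edges : ℝ) / ρ ≤ (h : ℝ) ^ 2 / ρ := by
    apply div_le_div_of_nonneg_right _ hρR.le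
    exact_mod_cast he
  have h3 : (((pyramid h).edges.choose h : ℕ) : ℝ) ≤ (3 * h) ^ h := by
    refine le_trans ?_ (choose_sq_le h (by omega))
    rw [← sq]
    exact_mod_cast Nat.choose_le_choose h he
  have h4 : 3 * (Nat.card Q : ℝ) * (pyramid h).edges.choose h / ρ ^ h ≤
      3 * Nat.card Q * (3 * h / ρ) ^ h := by
    rw [mul_div_assoc, div_pow]
    refine mul_le_mul_of_nonneg_left ?_ (by positivity)
    exact div_le_div_of_nonneg_right h3 (by positivity)
  linarith

end Pool.Agent.W988.SR
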